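import Pool.Agent.Lib.MP_f99ede_an.Cont.Proj

/-! The size of one step of a dyadic martingale in the strong and in the weak sense. -/

open MeasureTheory Finset Filter Topology

namespace Pool.Agent.Lib.MP_f99ede_an.Cont

open Unc

theorem cyl_pol (n : ℕ) (a : Finset ℕ) :
    cyl n a = pol (range n) fun S => (1 / 2) ^ n * ∏ j ∈ S, sg a j := by
  ext x
  rw [cyl_apply, pol_apply, prod_mul_distrib, prod_const, card_range, prod_one_add, mul_sum]
  refine sum_congr rfl fun S _ => ?_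
  rw [prod_mul_distrib, wal_apply, mul_assoc]

/-- The increment from level `n` to level `n'` on the cylinder `a`. -/
noncomputable def del (n n' : ℕ) (a : Finset ℕ) : CC :=
  cyl n' a - ((1 / 2 : ℝ) ^ (n' - n)) • cyl n a

theorem del_pol {n n' : ℕ} (h : n ≤ n') (a : Finset ℕ) : del n n' a =
    pol (range n') fun S => (if S ⊆ range n then 0 else 1) * ((1 / 2) ^ n' * ∏ j ∈ S, sg a j) := by
  have h1 : (range n).powerset = (range n').powerset.filter fun S => S ⊆ range n := by
    ext S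
    simp only [mem_powerset, mem_filter]
    exact ⟨fun k => ⟨k.trans (range_subset_range.2 h), k⟩, fun k => k.2⟩
  have h2 : (1 / 2 : ℝ) ^ (n' - n) * (1 / 2) ^ n = (1 / 2) ^ n' := by
    rw [← pow_add, Nat.sub_add_cancel h]
  rw [del, cyl_pol, cyl_pol, pol, pol, pol, h1, sum_filter, smul_sum, ← sum_sub_distrib]
  refine sum_congr rfl fun S _ => ?_
  split_ifs
  · rw [smul_smul, ← mul_assoc, h2]
    simp
  · simp

section

variable {Z W : Type*} [NormedAddCommGroup Z] [NormedSpace ℝ Z] [NormedAddCommGroup W]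
  [NormedSpace ℝ W]

/-- The strong size of the step. -/
noncomputable def disp (V : LC →L[ℝ] Z) (n n' : ℕ) : ℝ :=
  ∑ a ∈ (range n').powerset, ‖V (toL (del n n' a))‖

/-- The weak size of the step is at most `ρ`. -/
def Pet (V : LC →L[ℝ] Z) (n n' : ℕ) (ρ : ℝ) : Prop :=
  ∀ ε : Finset ℕ → ℝ, (∀ a, |ε a| = 1) → ‖V (toL (∑ a ∈ (range n').powerset, ε a • del n n' a))‖ ≤ ρ

theorem Pet.left {V : LC →L[ℝ] Z} {n n' : ℕ} {ρ : ℝ} (h : Pet V n n' ρ) (U : Z →L[ℝ] W) :
    Pet (U ∘L V) n n' (‖U‖ * ρ) := fun ε hε =>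
  (U.le_opNorm _).trans (mul_le_mul_of_nonneg_left (h ε hε) (norm_nonneg _))

theorem Pet.disp_le {V : LC →L[ℝ] ℝ} {n n' : ℕ} {ρ : ℝ} (h : Pet V n n' ρ) : disp V n n' ≤ ρ := by
  refine le_trans ?_ (h (fun a => if V (toL (del n n' a)) < 0 then -1 else 1) fun a => by
    split_ifs <;> simp)
  refine le_trans (le_of_eq ?_) (le_abs_self _)
  simp only [disp, map_sum, map_smul, smul_eq_mul, Real.norm_eq_abs]
  refine sum_congr rfl fun a _ => ?_
  split_ifs with h
  · rw [abs_of_neg h, neg_one_mul]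
  · rw [abs_of_nonneg (not_lt.1 h), one_mul]

theorem disp_le_tot (V : LC →L[ℝ] Z) {n n' : ℕ} (h : n ≤ n') : disp V n n' ≤ 2 * tot V n' := by
  have h1 : ∑ a ∈ (range n').powerset, (1 / 2 : ℝ) ^ (n' - n) * ‖V (toL (cyl n a))‖ = tot V n := by
    induction n', h using Nat.le_induction with
    | base => simp [tot]
    | succ m hm ih =>
      rw [range_add_one, sum_powerset_insert notMem_range_self, ← sum_add_distrib, ← ih]
      refine sum_congr rfl fun a _ => ?_
      have e : cyl n (insert m a) = cyl n a := by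
        ext x
        simp only [cyl_apply]
        exact prod_congr rfl fun j hj => by simp [sg, ((mem_range.1 hj).trans_le hm).ne]
      rw [e, Nat.succ_sub hm, pow_succ]
      ring
  have h2 := tot_mono V h
  refine le_trans (sum_le_sum (g := fun a => ‖V (toL (cyl n' a))‖ +
    (1 / 2 : ℝ) ^ (n' - n) * ‖V (toL (cyl n a))‖) fun a _ => ?_) ?_
  · rw [del, map_sub, map_sub, map_smul, map_smul]
    refine (norm_sub_le _ _).trans ?_
    rw [norm_smul, Real.norm_of_nonneg (by positivity)]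
  · rw [sum_add_distrib, h1]
    unfold tot at h2 ⊢
    linarith

theorem disp_tail (V : LC →L[ℝ] Z) (K : ℕ → Z →L[ℝ] W)
    (h1 : ∀ (N : ℕ) z, ∑ k ∈ range N, ‖K k z‖ ≤ ‖z‖) (h2 : ∀ z, ‖z‖ ≤ ∑' k, ‖K k z‖) {η : ℝ}
    (hη : 0 < η) : ∃ N, ∀ n n', n ≤ n' → disp V n n' ≤ ∑ k ∈ range N, disp (K k ∘L V) n n' + η := by
  have hb : ∀ k, BddAbove (Set.range (tot (K k ∘L V))) := fun k =>
    ⟨_, by rintro _ ⟨n, rfl⟩; exact tot_le _ n⟩
  have hτ : Summable fun k => ⨆ n, tot (K k ∘L V) n := by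
    refine summable_of_sum_range_le (c := ‖V‖) (fun k => le_trans
      (sum_nonneg fun _ _ => norm_nonneg _) (le_ciSup (hb k) 0)) fun N => ?_
    refine le_of_tendsto' (tendsto_finsetSum _ fun k _ =>
      tendsto_atTop_ciSup (tot_mono (K k ∘L V)) (hb k)) fun n => le_trans ?_ (tot_le V n)
    unfold tot
    rw [sum_comm]
    exact sum_le_sum fun a _ => h1 N _
  obtain ⟨N, hN⟩ := ((tendsto_sum_nat_add fun k => ⨆ n, tot (K k ∘L V) n).eventually
    (ge_mem_nhds (half_pos hη))).exists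
  refine ⟨N, fun n n' h => ?_⟩
  have hs : ∀ z, Summable fun k => ‖K k z‖ := fun z =>
    summable_of_sum_range_le (fun _ => norm_nonneg _) fun N => h1 N z
  have k1 : Summable fun k => disp (K k ∘L V) n n' := summable_sum fun a _ => hs _
  have k2 : disp V n n' ≤ ∑' k, disp (K k ∘L V) n n' := by
    refine (sum_le_sum fun a _ => h2 _).trans (le_of_eq ?_)
    exact (Summable.tsum_finsetSum fun a _ => hs _).symm
  rw [← k1.sum_add_tsum_nat_add N] at k2
  have k3 : ∑' k, disp (K (k + N) ∘L V) n n' ≤ ∑' k, 2 * ⨆ n, tot (K (k + N) ∘L V) n :=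
    Summable.tsum_le_tsum (fun k => (disp_le_tot _ h).trans
      (mul_le_mul_of_nonneg_left (le_ciSup (hb _) n') zero_le_two))
      ((summable_nat_add_iff N).2 k1) (((summable_nat_add_iff N).2 hτ).mul_left 2)
  rw [tsum_mul_left] at k3
  linarith

theorem exists_mult [CompleteSpace W] (v : Finset ℕ → W)
    (h : ∀ (s : Finset ℕ) (c : Finset ℕ → ℝ), ‖∑ S ∈ s.powerset, c S • v S‖ ≤ ‖toL (pol s c)‖) :
    ∃ T : LC →L[ℝ] W, ‖T‖ ≤ 1 ∧ ∀ S, T (toL (wal S)) = v S := by
  have hn : ∀ c : Finset ℕ →₀ ℝ, ‖Finsupp.linearCombination ℝ v c‖ ≤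
      1 * ‖Finsupp.linearCombination ℝ (fun S => (1 : ℝ) • toL (wal S)) c‖ := fun c => by
    rw [lc_pol (fun _ => 1), Finsupp.linearCombination_apply, Finsupp.sum_of_support_subset
      (s := (c.support.biUnion id).powerset) _
      (fun S hS => mem_powerset.2 (subset_biUnion_of_mem id hS)) _ (by simp)]
    simpa using h _ c
  refine ⟨LinearMap.extendOfNorm _ _, LinearMap.opNorm_extendOfNorm_le dense_wal zero_le_one hn,
    fun S => ?_⟩
  simpa using LinearMap.extendOfNorm_eq dense_wal ⟨1, hn⟩ (Finsupp.single S 1)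

end

theorem l2_le (s : Finset ℕ) (c m : Finset ℕ → ℝ) {κ M : ℝ} (hκ : 0 < κ) (hM : 0 < M)
    (hm : ∀ S ∈ s.powerset, |m S| ≤ κ) (hc : ∀ x, |pol s c x| ≤ M) :
    ‖toL (pol s fun S => m S * c S)‖ ≤ κ * M := by
  set F := pol s fun S => m S * c S with hF
  have h1 : ∑ S ∈ s.powerset, c S * c S ≤ M ^ 2 := by
    rw [← parseval, ← mul_one (M ^ 2), ← Ex_one, ← smul_eq_mul (M ^ 2), ← map_smul]
    refine Ex_mono fun x => ?_
    simp only [ContinuousMap.mul_apply, ContinuousMap.smul_apply, ContinuousMap.one_apply,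
      smul_eq_mul, mul_one]
    rw [← abs_mul_abs_self, sq]
    exact mul_self_le_mul_self (abs_nonneg _) (hc x)
  have h2 : Ex (F * F) ≤ κ ^ 2 * M ^ 2 := by
    rw [hF, parseval]
    refine le_trans (sum_le_sum (g := fun S => κ ^ 2 * (c S * c S)) fun S hS => ?_) ?_
    · have := pow_le_pow_left₀ (abs_nonneg _) (hm S hS) 2
      rw [sq_abs] at this
      nlinarith [mul_self_nonneg (c S)]
    · rw [← mul_sum]
      exact mul_le_mul_of_nonneg_left h1 (sq_nonneg _)
  have h3 : Ex ((2 * (κ * M)) • |F|) ≤ Ex (F * F + ((κ * M) ^ 2) • 1) := Ex_mono fun x => by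
    simp only [ContinuousMap.abs_apply, ContinuousMap.add_apply, ContinuousMap.smul_apply,
      ContinuousMap.mul_apply, ContinuousMap.one_apply, smul_eq_mul, mul_one]
    nlinarith [sq_nonneg (|F x| - κ * M), abs_mul_abs_self (F x)]
  rw [map_add, map_smul, map_smul, Ex_one, smul_eq_mul, smul_eq_mul] at h3
  rw [norm_toL]
  nlinarith [mul_pos hκ hM]

theorem exists_coef (F : Finset ℕ) :
    ∃ φ : LC →L[ℝ] ℝ, ‖φ‖ ≤ 1 ∧ ∀ S, φ (toL (wal S)) = if S = F then 1 else 0 := by
  refine exists_mult _ fun s c => ?_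
  by_cases h : F ∈ s.powerset
  · have h1 := parseval s c fun S => if S = F then 1 else 0
    have h2 : (pol s fun S => if S = F then 1 else 0) = wal F := by simp [pol, mem_powerset.1 h]
    simp only [smul_eq_mul]
    rw [← h1, h2, norm_toL, Real.norm_eq_abs, abs_le]
    have h3 : ∀ x, |(pol s c * wal F) x| = |pol s c| x := fun x => by
      have : |wal F x| = 1 := by
        rw [wal_apply, abs_prod]
        exact prod_eq_one fun j _ => by rw [rad_apply]; split_ifs <;> simp
      simp [abs_mul, this]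
    refine ⟨?_, Ex_mono fun x => (le_abs_self _).trans (h3 x).le⟩
    rw [← map_neg]
    exact Ex_mono fun x => by
      rw [ContinuousMap.neg_apply, ← h3]
      exact neg_abs_le _
  · rw [sum_eq_zero fun S hS => by rw [if_neg fun e : S = F => h (e ▸ hS), smul_zero]]
    simp

theorem exists_cond (n : ℕ) : ∃ E : LC →L[ℝ] LC, ‖E‖ ≤ 1 ∧
    ∀ S, E (toL (wal S)) = (if S ⊆ range n then (1 : ℝ) else 0) • toL (wal S) := by
  refine exists_mult _ fun s c => ?_
  obtain ⟨B, b1, b2, b3⟩ := exists_avg (s \ range n)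
  have h1 : ∑ S ∈ s.powerset, c S • (if S ⊆ range n then (1 : ℝ) else 0) • toL (wal S) =
      toL (B ∅ (pol s c)) := by
    rw [avg_pol b1, pol, map_sum]
    refine sum_congr rfl fun S hS => ?_
    have e : Agr (s \ range n) S ∅ ↔ S ⊆ range n := by
      simp only [Agr, notMem_empty, iff_false]
      exact ⟨fun h i hi => by_contra fun k => h i (Finset.mem_sdiff.2 ⟨mem_powerset.1 hS hi, k⟩) hi,
        fun h i hi k => (Finset.mem_sdiff.1 hi).2 (h k)⟩
    simp only [e, map_smul]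
    split_ifs <;> simp
  rw [h1, norm_toL, norm_toL, ← b3 |pol s c|]
  exact Ex_mono fun x => b2 ∅ _ x

theorem norm_wal (S : Finset ℕ) : ‖toL (wal S)‖ = 1 := by
  rw [norm_toL, ← Ex_one]
  congr 1
  ext x
  rw [ContinuousMap.abs_apply, wal_apply, abs_prod]
  exact prod_eq_one fun j _ => by rw [rad_apply]; split_ifs <;> simp

end Pool.Agent.Lib.MP_f99ede_an.Cont
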