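import Pool.Agent.Lib.MP_f99ede_an.Cont.Member
import Pool.Agent.Lib.MP_f99ede_an.Unc.Family

/-! Continuum many pairwise incomparable complemented subspaces of `L₁[0,1]`. -/

open MeasureTheory Finset Filter Topology

namespace Pool.Agent.Lib.MP_f99ede_an.Cont

open Unc

theorem exists_sets : ∃ A : ℝ → Set ℕ, ∀ s t, s ≠ t → (A s \ A t).Infinite := by
  obtain ⟨e⟩ : Nonempty (ℚ × ℚ ≃ ℕ) := nonempty_equiv_of_countable
  refine ⟨fun s => {i | ((e.symm i).1 : ℝ) < s ∧ s < (e.symm i).2}, fun s t h => ?_⟩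
  rcases lt_or_gt_of_ne h with h | h
  · obtain ⟨q, q1, q2⟩ := exists_rat_btwn h
    obtain ⟨p, hp⟩ := exists_rat_lt s
    refine Set.infinite_of_injective_forall_mem (f := fun k : ℕ => e (p - k, q))
      (fun a b k => by simpa using k) fun k => ?_
    have : (0 : ℝ) ≤ k := k.cast_nonneg
    simp only [Set.mem_sdiff, Set.mem_ofPred_eq, Equiv.symm_apply_apply]
    push_cast
    exact ⟨⟨by linarith, q1⟩, fun a => by linarith [a.2]⟩
  · obtain ⟨p, q1, q2⟩ := exists_rat_btwn h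
    obtain ⟨q, hq⟩ := exists_rat_gt s
    refine Set.infinite_of_injective_forall_mem (f := fun k : ℕ => e (p, q + k))
      (fun a b k => by simpa using k) fun k => ?_
    have : (0 : ℝ) ≤ k := k.cast_nonneg
    simp only [Set.mem_sdiff, Set.mem_ofPred_eq, Equiv.symm_apply_apply]
    push_cast
    exact ⟨⟨q2, by linarith⟩, fun a => by linarith [a.1]⟩

theorem emd_of_finite (X : Type*) [NormedAddCommGroup X] [NormedSpace ℝ X]
    [FiniteDimensional ℝ X] : Emd X ell1 := by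
  let b := Module.finBasis ℝ X
  let L : X →ₗ[ℝ] ell1 := b.constr ℝ fun i => e1u i
  have h : LinearMap.ker L = ⊥ := LinearMap.ker_eq_bot'.2 fun x hx => b.ext_elem fun i => by
    have k := congrArg (e1c i) hx
    simpa [L, e1c_apply, e1u, lp.single_apply, Pi.single_apply, Fin.val_inj] using k
  obtain ⟨K, h1, h2⟩ := L.exists_antilipschitzWith h
  refine ⟨L.toContinuousLinearMap, (K : ℝ)⁻¹, by positivity, fun x => ?_⟩
  rw [inv_mul_le_iff₀ (by positivity)]
  simpa using h2.le_mul_dist x 0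

theorem family : ∃ X : ℝ → Submodule ℝ L01,
    (∀ s, (∃ P : L01 →L[ℝ] L01, (∀ f, P (P f) = P f) ∧
      LinearMap.range (P : L01 →ₗ[ℝ] L01) = X s) ∧ ¬Emd L01 (X s) ∧ ¬Emd (X s) ell1 ∧
      ∀ x : ℕ → X s, WN x → Tendsto x atTop (𝓝 0)) ∧
    ∀ s t, s ≠ t → ¬Emd (X s) (X t) := by
  obtain ⟨n, β, hn, h1, h2, h3⟩ := exists_blocks
  obtain ⟨A, hA⟩ := exists_sets
  choose P0 Φ d hP0 hN0 hd hlo hsm hvan hcc using fun s => exists_member hn h1 h2 h3 (A s)
  obtain ⟨i⟩ := exists_equiv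
  let u : LC →L[ℝ] L01 := i.toContinuousLinearEquiv
  let v : L01 →L[ℝ] LC := i.symm.toContinuousLinearEquiv
  let P : ℝ → L01 →L[ℝ] L01 := fun s => (u ∘L P0 s) ∘L v
  have hP : ∀ s z, P s (P s z) = P s z := fun s z => by simp [P, u, v, hP0]
  let X : ℝ → Submodule ℝ L01 := fun s => LinearMap.range (P s : L01 →ₗ[ℝ] L01)
  have hX : ∀ s (x : X s), P s x = x := by
    rintro s ⟨_, z, rfl⟩
    exact hP s z
  let p : ∀ s, LC →L[ℝ] X s := fun s => (P s).codRestrict (X s) (fun z => ⟨z, rfl⟩) ∘L u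
  have hp : ∀ s z, ‖p s (P0 s z)‖ = ‖P0 s z‖ := fun s z => by
    change ‖P s (u (P0 s z))‖ = _
    simp [P, u, v, hP0]
  have hv : ∀ s (x : X s), ‖P0 s (v x)‖ = ‖x‖ := fun s x => by
    have k := congrArg norm (hX s x)
    simp only [P, u, ContinuousLinearMap.comp_apply, ContinuousLinearEquiv.coe_coe,
      LinearIsometryEquiv.coe_toContinuousLinearEquiv, LinearIsometryEquiv.norm_map] at k
    exact k
  have nb : ∀ s t, s ≠ t → (atTop ⊓ 𝓟 (A s \ A t)).NeBot := fun s t h =>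
    frequently_mem_iff_neBot.1 (Nat.frequently_atTop_iff_infinite.2 (hA s t h))
  have lo : ∀ s t, ∀ᶠ j in atTop ⊓ 𝓟 (A s \ A t), d s ≤ disp (P0 s ∘L Φ s) (n j) (n (j + 1)) :=
    fun s t => eventually_inf_principal.2 (Eventually.of_forall fun j hj => hlo s j hj.1)
  refine ⟨X, fun s => ⟨⟨P s, hP s, rfl⟩, ?_, ?_, fun x hx => ?_⟩, ?_⟩
  · rintro ⟨T, a, ha, hT⟩
    refine (((hN0 s).left u).right v).not_below ((X s).subtypeL ∘L T ∘L u) (c := a) ha fun f => ?_
    have k : ‖u f‖ = ‖f‖ := by simp [u]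
    change _ ≤ ‖P s (T (u f) : X s)‖
    rw [hX, ← k]
    exact hT (u f)
  · rintro ⟨T, a, ha, hT⟩
    have := nb s (s + 1) (by simp)
    refine Van.not_below (V := P0 s ∘L Φ s) (fun η hη => (((hsm s).left (T ∘L p s)).van_ell1 hn η
      hη).filter_mono inf_le_left) ha (hd s) (fun y => ?_) (lo s (s + 1))
    exact (mul_le_mul_of_nonneg_left (hp s _).ge ha.le).trans (hT _)
  · refine NormedAddGroup.tendsto_nhds_zero.2 fun η hη => ?_
    filter_upwards [hcc s _ (hx.map (v ∘L (X s).subtypeL)) _ (half_pos hη)] with j hj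
    exact ((hv s (x j)).ge.trans hj).trans_lt (half_lt_self hη)
  · rintro s t h ⟨T, a, ha, hT⟩
    have := nb s t h
    refine Van.not_below (V := P0 s ∘L Φ s) (fun η hη => (hvan t _ ((hsm s).left
      (v ∘L (X t).subtypeL ∘L T ∘L p s)) η hη).filter_mono (inf_le_inf_left _
        (principal_mono.2 fun j hj => hj.2))) ha (hd s) (fun y => ?_) (lo s t)
    exact (mul_le_mul_of_nonneg_left (hp s _).ge ha.le).trans ((hT _).trans (hv t _).ge)

end Pool.Agent.Lib.MP_f99ede_an.Cont
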