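import Pool.Agent.Lib.MP_f99ede_an.Cont.Step

/-! The lower bound for one step after the resolvent of a long block of equal weights. -/

open MeasureTheory Finset Filter Topology

namespace Pool.Agent.Lib.MP_f99ede_an.Cont

open Unc

theorem psi_eq (w : ℕ → ℝ) (S : Finset ℕ) : psi (fun j => {j}) w S = ∑ j ∈ S, w j := by
  rw [psi, biUnion_singleton_eq_self]

theorem dual_res {w : ℕ → ℝ} (hw : ∀ j, 0 ≤ w j) (s : Finset ℕ) (c : Finset ℕ → ℝ) (h : CC)
    {B : ℝ} (hB : ∀ x, |h x + ∑ j ∈ s, w j / 2 * (h x - h (flp j x))| ≤ B) :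
    Ex (pol s c * h) ≤ B * ‖toL (pol s fun S => mps (fun j => {j}) w 1 S * c S)‖ := by
  set m := mps (fun j => {j}) w 1 with hm
  set g := pol s fun S => m S * c S with hg
  have e1 : pol s c = g + ∑ j ∈ s, (w j / 2) • (g - g.comp (flp j)) := by
    ext x
    simp only [hg, ContinuousMap.add_apply, ContinuousMap.sum_apply, ContinuousMap.smul_apply,
      ContinuousMap.sub_apply, ContinuousMap.comp_apply, pol_apply, smul_eq_mul, wal_flp,
      ← sum_sub_distrib, mul_sum]
    rw [sum_comm, ← sum_add_distrib]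
    refine sum_congr rfl fun S hS => ?_
    have k : ∑ j ∈ s, w j / 2 * (m S * c S * wal S x -
        m S * c S * ((if j ∈ S then -1 else 1) * wal S x)) =
        (∑ j ∈ S, w j) * (m S * c S * wal S x) := by
      rw [sum_mul, ← sum_subset (mem_powerset.1 hS) fun j _ hj => by simp [hj]]
      exact sum_congr rfl fun j hj => by rw [if_pos hj]; ring
    have k0 : 0 ≤ ∑ j ∈ S, w j := sum_nonneg fun j _ => hw j
    rw [k, hm, mps, psi_eq]
    field_simp
  have e2 : ∀ j, Ex (g.comp (flp j) * h) = Ex (g * h.comp (flp j)) := fun j => by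
    rw [← Ex_comp_flp j (g.comp (flp j) * h)]
    congr 1
    ext x
    have : flp j (flp j x) = x := funext fun i => by
      simp only [flp_apply]
      split_ifs <;> simp
    simp [this]
  have e3 : Ex (pol s c * h) = Ex (g * (h + ∑ j ∈ s, (w j / 2) • (h - h.comp (flp j)))) := by
    rw [e1]
    simp only [add_mul, mul_add, sum_mul, mul_sum, smul_mul_assoc, mul_smul_comm, sub_mul, mul_sub,
      map_add, map_sum, map_smul, map_sub, e2]
  rw [e3, norm_toL, ← smul_eq_mul B, ← map_smul]
  refine Ex_mono fun x => ?_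
  simp only [ContinuousMap.mul_apply, ContinuousMap.add_apply, ContinuousMap.sum_apply,
    ContinuousMap.smul_apply, ContinuousMap.sub_apply, ContinuousMap.comp_apply, smul_eq_mul,
    ContinuousMap.abs_apply]
  refine (le_abs_self _).trans ?_
  rw [abs_mul, mul_comm]
  exact mul_le_mul_of_nonneg_right (hB x) (abs_nonneg _)

theorem Ex_sq (n : ℕ) (a D : Finset ℕ) (hD : ∀ j ∈ D, n ≤ j) :
    Ex (cyl n a * (∑ j ∈ D, sg a j • rad j) ^ 2) = D.card * (1 / 2) ^ n := by
  induction D using Finset.induction_on with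
  | empty => simp
  | insert i D hi ih =>
    set S : CC := ∑ j ∈ D, sg a j • rad j with hS
    have e : cyl n a * (∑ j ∈ insert i D, sg a j • rad j) ^ 2 =
        cyl n a * S ^ 2 + cyl n a + (2 * sg a i) • (rad i * (cyl n a * S)) := by
      ext x
      have h1 : sg a i * sg a i = 1 := by unfold sg; split_ifs <;> norm_num
      rw [sum_insert hi, ← hS]
      simp only [ContinuousMap.mul_apply, ContinuousMap.add_apply, ContinuousMap.pow_apply,
        ContinuousMap.smul_apply, smul_eq_mul]
      linear_combination (cyl n a x * rad i x * rad i x) * h1 + cyl n a x * rad_sq i x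
    rw [e, map_add, map_add, map_smul, ih fun j hj => hD j (mem_insert_of_mem hj), Ex_cyl,
      Ex_rad_mul fun x => ?_, card_insert_of_notMem hi]
    · push_cast
      simp only [smul_eq_mul]
      ring
    · simp only [hS, ContinuousMap.mul_apply, ContinuousMap.sum_apply, ContinuousMap.smul_apply,
        cyl_apply]
      congr 1
      · exact prod_congr rfl fun j hj => by
          rw [rad_flp, if_neg ((mem_range.1 hj).trans_le (hD i (mem_insert_self _ _))).ne]
      · exact sum_congr rfl fun j hj => by rw [rad_flp, if_neg fun e : j = i => hi (e ▸ hj)]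

theorem disp_lower {w : ℕ → ℝ} (hw : ∀ j, 0 ≤ w j) {R : LC →L[ℝ] LC}
    (hR : ∀ S, R (toL (wal S)) = mps (fun j => {j}) w 1 S • toL (wal S)) {n n' : ℕ} (h : n < n')
    {l : ℝ} (hl : ∀ j ∈ Ico n n', w j = l) :
    Real.log (1 + ((n' - n : ℕ) : ℝ)) - 1 ≤
      (Real.log (1 + ((n' - n : ℕ) : ℝ)) + 18 * l) * disp R n n' := by
  set m : ℝ := ((n' - n : ℕ) : ℝ) with hm
  have m1 : 1 ≤ m := by
    rw [hm]
    exact_mod_cast Nat.sub_pos_of_lt h
  have m0 : 0 < m := by linarith
  have l0 : 0 ≤ l := hl n (mem_Ico.2 ⟨le_rfl, h⟩) ▸ hw n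
  have hD : ((Ico n n').card : ℝ) = m := by rw [Nat.card_Ico]
  have key : ∀ a, (Real.log (1 + m) - 1) * (1 / 2) ^ n' ≤
      (Real.log (1 + m) + 18 * l) * ‖R (toL (del n n' a))‖ := fun a => by
    set S : CC := ∑ j ∈ Ico n n', sg a j • rad j with hS
    have hS' : ∀ x, S x = ∑ j ∈ Ico n n', sg a j * rad j x := fun x => by simp [hS]
    have hr : ∀ x j, sg a j * rad j x * (sg a j * rad j x) = 1 := fun x j => by
      simp only [sg, rad_apply]
      split_ifs <;> norm_num
    let H : CC := ⟨fun x => Real.log (1 + S x ^ 2 / m),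
      Continuous.log (by fun_prop) fun x => by positivity⟩
    have hH : ∀ x, H x = Real.log (1 + S x ^ 2 / m) := fun _ => rfl
    have b1 : ∀ x, |H x + ∑ j ∈ range n', w j / 2 * (H x - H (flp j x))| ≤
        Real.log (1 + m) + 18 * l := fun x => by
      have c1 : ∀ j, S (flp j x) =
          if j ∈ Ico n n' then S x - 2 * (sg a j * rad j x) else S x := fun j => by
        rw [hS', hS']
        split_ifs with hj
        · rw [← add_sum_erase _ _ hj, ← add_sum_erase _ (fun i => sg a i * rad i x) hj, rad_flp,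
            if_pos rfl, sum_congr rfl fun i hi => by rw [rad_flp, if_neg (ne_of_mem_erase hi)]]
          ring
        · exact sum_congr rfl fun i hi => by rw [rad_flp, if_neg fun e : i = j => hj (e ▸ hi)]
      have c2 : ∑ j ∈ range n', w j / 2 * (H x - H (flp j x)) = l / 2 * ∑ j ∈ Ico n n',
          (Real.log (1 + S x ^ 2 / m) - Real.log (1 + (S x - 2 * (sg a j * rad j x)) ^ 2 / m)) := by
        rw [mul_sum, ← sum_subset (s₁ := Ico n n') (fun j hj => mem_range.2 (mem_Ico.1 hj).2)
          fun j _ hj => by rw [hH, hH, c1, if_neg hj, sub_self, mul_zero]]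
        exact sum_congr rfl fun j hj => by rw [hH, hH, c1, if_pos hj, hl j hj]
      have c3 := log_step m1 _ hD (fun j => sg a j * rad j x) (hr x) (hS' x).symm
      have c4 : |S x| ≤ m := by
        rw [hS', ← hD, card_eq_sum_ones]
        push_cast
        refine (abs_sum_le_sum_abs _ _).trans (sum_le_sum fun j _ => ?_)
        simp only [sg, rad_apply]
        split_ifs <;> norm_num
      have c5 : |H x| ≤ Real.log (1 + m) := by
        rw [hH, abs_of_nonneg (Real.log_nonneg (le_add_of_nonneg_right (by positivity)))]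
        refine Real.log_le_log (by positivity) (add_le_add_right ?_ _)
        rw [div_le_iff₀ m0, ← sq_abs, sq]
        exact mul_self_le_mul_self (abs_nonneg _) c4
      refine (abs_add_le _ _).trans (add_le_add c5 ?_)
      rw [c2, abs_mul, abs_of_nonneg (by positivity)]
      nlinarith
    have b2 := dual_res hw (range n') (fun T => (if T ⊆ range n then 0 else 1) *
      ((1 / 2) ^ n' * ∏ j ∈ T, sg a j)) H b1
    rw [← mul_pol hR, ← del_pol h.le] at b2
    refine le_trans ?_ b2
    have b3 : cyl n' a * H = Real.log (1 + m) • cyl n' a := by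
      ext x
      by_cases k : cyl n' a x = 0
      · simp [k]
      · have : S x = m := by
          rw [hS', ← hD, card_eq_sum_ones]
          push_cast
          refine sum_congr rfl fun j hj => ?_
          rw [cyl_apply] at k
          have k1 := prod_ne_zero_iff.1 k j (mem_range.2 (mem_Ico.1 hj).2)
          simp only [sg, rad_apply] at k1 ⊢
          split_ifs at k1 ⊢ <;> simp_all
        rw [ContinuousMap.mul_apply, ContinuousMap.smul_apply, hH, this, sq,
          mul_div_cancel_right₀ _ m0.ne', mul_comm, smul_eq_mul]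
    have b4 : Ex (cyl n a * H) ≤ (1 / 2) ^ n := by
      have k := Ex_sq n a (Ico n n') fun j hj => (mem_Ico.1 hj).1
      rw [← hS, hD] at k
      refine (Ex_mono (g := m⁻¹ • (cyl n a * S ^ 2)) fun x => ?_).trans (le_of_eq ?_)
      · have k1 := Real.log_le_sub_one_of_pos (show 0 < 1 + S x ^ 2 / m by positivity)
        simp only [ContinuousMap.mul_apply, ContinuousMap.smul_apply, ContinuousMap.pow_apply,
          smul_eq_mul, hH]
        rw [mul_left_comm, ← div_eq_inv_mul]
        exact mul_le_mul_of_nonneg_left (by linarith) (cyl_nonneg n a x)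
      · rw [map_smul, k, smul_eq_mul, inv_mul_cancel_left₀ m0.ne']
    have b5 : (1 / 2 : ℝ) ^ (n' - n) * (1 / 2) ^ n = (1 / 2) ^ n' := by
      rw [← pow_add, Nat.sub_add_cancel h.le]
    rw [del, sub_mul _ _ H, smul_mul_assoc, map_sub, map_smul, b3, map_smul, Ex_cyl, smul_eq_mul,
      smul_eq_mul]
    nlinarith [mul_le_mul_of_nonneg_left b4 (show (0 : ℝ) ≤ (1 / 2) ^ (n' - n) by positivity)]
  rw [disp, mul_sum]
  refine le_trans (le_of_eq ?_) (sum_le_sum fun a _ => key a)
  simp only [sum_const, card_powerset, card_range, nsmul_eq_mul]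
  push_cast
  rw [mul_left_comm, ← mul_pow]
  norm_num

end Pool.Agent.Lib.MP_f99ede_an.Cont
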