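import Pool.Agent.Lib.MP_f99ede_an.Cont.Schur

/-! The projection attached to a set of blocks. -/

open MeasureTheory Finset Filter Topology

namespace Pool.Agent.Lib.MP_f99ede_an.Cont

open Unc

theorem exists_blocks : ∃ n β : ℕ → ℕ, StrictMono n ∧
    (∀ i, 40 * 8 ^ n i ≤ Real.log (1 + ((n (i + 1) - n i : ℕ) : ℝ))) ∧
    (∀ i j, n i ≤ j → i ≤ β j) ∧ ∀ i, ∀ j ∈ Ico (n i) (n (i + 1)), β j = i := by
  let n : ℕ → ℕ := fun i => Nat.rec 0 (fun _ k => k + ⌈Real.exp (40 * 8 ^ k)⌉₊) i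
  have e : ∀ i, n (i + 1) = n i + ⌈Real.exp (40 * 8 ^ n i)⌉₊ := fun _ => rfl
  have hn : StrictMono n := strictMono_nat_of_lt_succ fun i => by
    rw [e]
    exact lt_add_of_pos_right _ (Nat.ceil_pos.2 (Real.exp_pos _))
  have h0 : ∀ j, ∃ i, j < n (i + 1) := fun j => ⟨j, (Nat.lt_succ_self j).trans_le (hn.le_apply)⟩
  have h1 : ∀ i j, n i ≤ j → i ≤ Nat.find (h0 j) := fun i j h =>
    (Nat.le_find_iff _ _).2 fun k hk => not_lt.2 ((hn.monotone hk).trans h)
  refine ⟨n, fun j => Nat.find (h0 j), hn, fun i => ?_, h1, fun i j hj =>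
    le_antisymm (Nat.find_le (mem_Ico.1 hj).2) (h1 i j (mem_Ico.1 hj).1)⟩
  rw [e, Nat.add_sub_cancel_left, Real.le_log_iff_exp_le (by positivity)]
  linarith [Nat.le_ceil (Real.exp (40 * 8 ^ n i))]

section

variable {Z W : Type*} [NormedAddCommGroup Z] [NormedSpace ℝ Z] [NormedAddCommGroup W]
  [NormedSpace ℝ W] {n : ℕ → ℕ}

/-- The steps along `n` are small in the weak sense. -/
def Sm (n : ℕ → ℕ) (V : LC →L[ℝ] Z) : Prop :=
  ∃ C : ℝ, ∀ i, Pet V (n i) (n (i + 1)) (C * (27 / 64) ^ n i)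

/-- The steps along `n` tend to zero in the strong sense along `F`. -/
def Van (n : ℕ → ℕ) (F : Filter ℕ) (V : LC →L[ℝ] Z) : Prop :=
  ∀ η : ℝ, 0 < η → ∀ᶠ i in F, disp V (n i) (n (i + 1)) ≤ η

theorem Sm.left {V : LC →L[ℝ] Z} (h : Sm n V) (U : Z →L[ℝ] W) : Sm n (U ∘L V) := by
  obtain ⟨C, hC⟩ := h
  exact ⟨‖U‖ * C, fun i => by rw [mul_assoc]; exact (hC i).left U⟩

theorem vanish (hn : Monotone n) {F : Filter ℕ} (V : LC →L[ℝ] Z) (K : ℕ → Z →L[ℝ] W)
    (h1 : ∀ (N : ℕ) z, ∑ k ∈ range N, ‖K k z‖ ≤ ‖z‖) (h2 : ∀ z, ‖z‖ ≤ ∑' k, ‖K k z‖)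
    (hK : ∀ k, Van n F (K k ∘L V)) : Van n F V := fun η hη => by
  obtain ⟨N, hN⟩ := disp_tail V K h1 h2 (half_pos hη)
  filter_upwards [(eventually_all_finset (range N)).2 fun k _ =>
    hK k (η / 2 / (N + 1)) (by positivity)] with i hi
  refine (hN _ _ (hn i.le_succ)).trans ?_
  have k1 := sum_le_sum hi
  rw [sum_const, card_range, nsmul_eq_mul] at k1
  have k2 : (N + 1 : ℝ) * (η / 2 / (N + 1)) = η / 2 := by field_simp
  have k3 : 0 < η / 2 / (N + 1) := by positivity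
  linarith

theorem small_pow (hn : StrictMono n) {r η : ℝ} (h0 : 0 ≤ r) (h1 : r < 1) (hη : 0 < η) (C : ℝ) :
    ∀ᶠ i in atTop, C * r ^ n i ≤ η := by
  have := ((tendsto_pow_atTop_nhds_zero_of_lt_one h0 h1).comp hn.tendsto_atTop).const_mul C
  rw [mul_zero] at this
  exact this.eventually (ge_mem_nhds hη)

theorem Sm.van_ell1 (hn : StrictMono n) {V : LC →L[ℝ] ell1} (h : Sm n V) : Van n atTop V := by
  refine vanish hn.monotone V (fun k => (e1c k).mkContinuous 1 fun f => by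
    simpa [e1c_apply] using e1_sum_le f {k}) (fun N z => e1_sum_le z _)
    (fun z => (e1_hasSum z).tsum_eq.ge) fun k η hη => ?_
  obtain ⟨C, hC⟩ := h.left ((e1c k).mkContinuous 1 fun f => by
    simpa [e1c_apply] using e1_sum_le f {k})
  filter_upwards [small_pow hn (r := 27 / 64) (by norm_num) (by norm_num) hη C] with i hi
  exact (hC i).disp_le.trans hi

theorem Van.not_below {F : Filter ℕ} [F.NeBot] {V : LC →L[ℝ] Z} {V' : LC →L[ℝ] W} (h : Van n F V')
    {c d : ℝ} (hc : 0 < c) (hd : 0 < d) (h1 : ∀ y, c * ‖V y‖ ≤ ‖V' y‖)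
    (h2 : ∀ᶠ i in F, d ≤ disp V (n i) (n (i + 1))) : False := by
  obtain ⟨i, k1, k2⟩ := ((h _ (half_pos (mul_pos hc hd))).and h2).exists
  have k3 : c * disp V (n i) (n (i + 1)) ≤ disp V' (n i) (n (i + 1)) := by
    rw [disp, mul_sum]
    exact sum_le_sum fun a _ => h1 _
  nlinarith [mul_pos hc hd]

end

theorem exists_member {n β : ℕ → ℕ} (hn : StrictMono n)
    (h1 : ∀ i, 40 * 8 ^ n i ≤ Real.log (1 + ((n (i + 1) - n i : ℕ) : ℝ)))
    (h2 : ∀ i j, n i ≤ j → i ≤ β j) (h3 : ∀ i, ∀ j ∈ Ico (n i) (n (i + 1)), β j = i) (A : Set ℕ) :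
    ∃ (P Φ : LC →L[ℝ] LC) (d : ℝ), (∀ z, P (P z) = P z) ∧ Nul P ∧ 0 < d ∧
      (∀ i ∈ A, d ≤ disp (P ∘L Φ) (n i) (n (i + 1))) ∧ Sm n (P ∘L Φ) ∧
      (∀ V, Sm n V → Van n (atTop ⊓ 𝓟 Aᶜ) (P ∘L V)) ∧
      ∀ z, WN z → ∀ η > 0, ∀ᶠ j in atTop, ‖P (z j)‖ ≤ η := by
  classical
  let w : ℕ → ℝ := fun j => 8 ^ n (if β j ∈ A then β j else β j + 1)
  have w0 : ∀ j, 1 ≤ w j := fun j => one_le_pow₀ (by norm_num)
  have hw : ∀ j, 0 ≤ w j := fun j => zero_le_one.trans (w0 j)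
  have w1 : ∀ i j, n i ≤ j → 8 ^ n i ≤ w j := fun i j h =>
    pow_le_pow_right₀ (by norm_num) (hn.monotone (by have := h2 i j h; split_ifs <;> omega))
  have w2 : ∀ i ∉ A, ∀ j, n i ≤ j → 8 ^ n (i + 1) ≤ w j := fun i hi j h =>
    pow_le_pow_right₀ (by norm_num) (hn.monotone (by
      have := h2 i j h
      split_ifs with k
      · exact lt_of_le_of_ne this fun e => hi (e ▸ k)
      · omega))
  have mb : ∀ (k N : ℕ) (t : ℝ), 0 < t → (∀ j, N ≤ j → t ≤ w j) → ∀ S, ¬S ⊆ range N →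
      |mps (fun j => {j}) w (2 ^ k) S| ≤ 2 ^ k / t := fun k N t ht h S hS => by
    obtain ⟨j, j1, j2⟩ := not_subset.1 hS
    have k1 := single_le_sum (fun j _ => hw j) j1
    have k2 := h j (not_lt.1 fun e => j2 (mem_range.2 e))
    have k3 : (0 : ℝ) < 2 ^ k := by positivity
    rw [mps, psi_eq, abs_of_nonneg (div_nonneg k3.le (by linarith))]
    exact div_le_div_of_nonneg_left k3.le ht (by linarith)
  obtain ⟨S, P, q, R, r1, r2, hP, hN, p1, p2, p3⟩ := pack (anc := fun j => {j}) hw fun M hM L => by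
    obtain ⟨T, t1, t2⟩ := hM.exists_subset_card_eq (⌈L⌉₊ + 1)
    refine ⟨T, t1, ?_⟩
    have k := sum_le_sum (s := T) fun j _ => w0 j
    rw [sum_const, t2, nsmul_eq_mul] at k
    rw [psi_eq]
    push_cast at k
    linarith [Nat.le_ceil L]
  refine ⟨P, S.J 0, 1 / (2 * (‖q‖ + 1)), hP, hN, by positivity, fun i hi => ?_, ⟨28, fun i ε hε => ?_⟩,
    fun V hV => ?_, fun z hz η hη => ?_⟩
  · have k1 := disp_lower hw (R := R 0) (fun F => by simpa using r2 0 F) (hn i.lt_succ_self)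
      (l := 8 ^ n i) fun j hj => by simp only [w, h3 i j hj, hi, if_true]
    have k2 : disp (R 0) (n i) (n (i + 1)) ≤ ‖q‖ * disp (P ∘L S.J 0) (n i) (n (i + 1)) := by
      rw [disp, disp, mul_sum]
      refine sum_le_sum fun a _ => ?_
      rw [← p1]
      exact q.le_opNorm _
    have k3 : (1 : ℝ) ≤ 8 ^ n i := one_le_pow₀ (by norm_num)
    have k4 : 1 / 2 ≤ disp (R 0) (n i) (n (i + 1)) := by
      by_contra k
      nlinarith [h1 i, not_le.1 k]
    have k5 : 0 ≤ disp (P ∘L S.J 0) (n i) (n (i + 1)) := sum_nonneg fun _ _ => norm_nonneg _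
    rw [div_le_iff₀ (by positivity)]
    nlinarith
  · have k0 := hn.monotone i.le_succ
    have k1 := pet_mult (r2 0) k0 (show (0 : ℝ) < 2 ^ 0 / 8 ^ n i by positivity) (fun F _ => by
      split_ifs with k
      · simp
      · rw [one_mul]
        exact mb 0 _ _ (by positivity) (w1 i) F k) ε hε
    have k2 := pet_one k0 ε hε
    refine (p3 (3 * n i) _).trans ((add_le_add (mul_le_mul_of_nonneg_left k1 (by positivity))
      (mul_le_mul_of_nonneg_left k2 (by positivity))).trans (le_of_eq ?_))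
    rw [pow_mul, pow_mul, show ((3 / 2 : ℝ) ^ 3) = 27 / 64 * 8 by norm_num,
      show ((3 / 4 : ℝ) ^ 3) = 27 / 64 by norm_num, mul_pow]
    field_simp
    ring
  · obtain ⟨C, hC⟩ := hV.left (q ∘L P)
    have key : ∀ l, Van n (atTop ⊓ 𝓟 Aᶜ) (R l ∘L (q ∘L P) ∘L V) := fun l η hη => by
      obtain ⟨M, -, hM⟩ := disp_res ((q ∘L P) ∘L V) (show 0 < η / 3 by positivity)
      have a1 := small_pow hn (r := 27 / 32) (by norm_num) (by norm_num)
        (show 0 < η / 3 by positivity) C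
      have a2 := (tendsto_add_atTop_nat 1).eventually (small_pow hn (r := 1 / 4) (by norm_num)
        (by norm_num) (show 0 < η / 3 by positivity) (2 * 2 ^ l * M))
      refine eventually_inf_principal.2 ?_
      filter_upwards [a1, a2] with i b1 b2 hi
      refine (hM (r1 l) (r2 l) (hn.monotone i.le_succ) (by positivity) (hC i)
        (mb l _ _ (by positivity) (w2 i hi))).trans ?_
      have b3 : (2 : ℝ) ^ n i * (C * (27 / 64) ^ n i) = C * (27 / 32) ^ n i := by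
        rw [mul_left_comm, ← mul_pow]
        norm_num
      have b4 : (2 : ℝ) * (2 ^ n (i + 1) * (2 ^ l / 8 ^ n (i + 1) * M)) =
          2 * 2 ^ l * M * (1 / 4) ^ n (i + 1) := by
        rw [show (1 / 4 : ℝ) = 2 / 8 by norm_num, div_pow]
        ring
      linarith
    refine vanish hn.monotone _ S.K S.sum_K (fun z => ?_) fun k η hη => ?_
    · simpa using S.tail z 0 (summable_of_sum_range_le (fun _ => norm_nonneg _)
        fun N => S.sum_K N z) fun _ => le_rfl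
    · have a0 : 0 < η / 2 / (3 / 2) ^ k := by positivity
      filter_upwards [key k _ a0, key (k - 1) _ a0] with i b1 b2
      refine (sum_le_sum fun a _ => p2 k (V _)).trans ?_
      rw [← mul_sum, sum_add_distrib]
      refine (mul_le_mul_of_nonneg_left (add_le_add b1 b2) (by positivity)).trans (le_of_eq ?_)
      field_simp
      ring
  · obtain ⟨N, hN⟩ := (hz.map P).tail S (half_pos hη)
    have key : ∀ l, ∀ τ > 0, ∀ᶠ j in atTop, ‖R l (q (P (z j)))‖ ≤ τ := fun l τ =>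
      ((hz.map P).map q).res (r1 l) (r2 l) fun κ hκ => by
        obtain ⟨i, hi⟩ := (small_pow hn (r := 1 / 8) (by norm_num) (by norm_num) hκ (2 ^ l)).exists
        refine ⟨n i, fun F hF => (mb l _ _ (by positivity) (w1 i) F hF).trans (hi.trans' ?_)⟩
        rw [one_div, inv_pow, div_eq_mul_inv]
    filter_upwards [hN, (eventually_all_finset (range N)).2 fun k _ =>
      (key k (η / 4 / (N + 1) / (3 / 2) ^ k) (by positivity)).and
        (key (k - 1) (η / 4 / (N + 1) / (3 / 2) ^ k) (by positivity))] with j a b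
    have k1 : ‖∑ k ∈ range N, S.J k (S.K k (P (z j)))‖ ≤ N * (η / 2 / (N + 1)) := by
      refine (norm_sum_le _ _).trans ((sum_le_sum (g := fun _ => η / 2 / (N + 1)) fun k hk =>
        (S.norm_J _ _).trans ((p2 k _).trans ?_)).trans (by simp))
      refine (mul_le_mul_of_nonneg_left (add_le_add (b k hk).1 (b k hk).2)
        (by positivity)).trans (le_of_eq ?_)
      field_simp
      ring
    have k2 : (N + 1 : ℝ) * (η / 2 / (N + 1)) = η / 2 := by field_simp
    have k3 : 0 < η / 2 / (N + 1) := by positivity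
    linarith [norm_sub_norm_le (P (z j)) (∑ k ∈ range N, S.J k (S.K k (P (z j))))]

end Pool.Agent.Lib.MP_f99ede_an.Cont
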