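import Pool.Agent.Lib.MP_f99ede_an.Unc.Space

/-! The projection onto the interpolation space, with the formula for its coordinates. -/

open Finset Filter Topology

namespace Pool.Agent.Lib.MP_f99ede_an.Cont

open Unc

section

variable {Z : Type*} [NormedAddCommGroup Z] [NormedSpace ℝ Z] [CompleteSpace Z]

theorem exists_proj2 (S : SelfSum Z) (T : ℕ → Z →L[ℝ] Z) (C : ℝ) (h0 : T 0 = 0)
    (hc : ∀ k l, Commute (T k) (T l)) (h1 : ∀ k, ‖T k‖ ≤ C)
    (h2 : ∀ k l, ‖T k * (1 - T l)‖ ≤ C * (2 ^ k / 2 ^ l)) (hN : ∀ k, Nul (T k)) :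
    ∃ P q : Z →L[ℝ] Z, (∀ z, P (P z) = P z) ∧ (∀ z, q (P z) = q z) ∧
      (∀ y, q (S.J 0 y) = T 1 y) ∧
      (∀ m z, S.K m (P z) = (3 / 2 : ℝ) ^ m • (T (m + 1) - T m) (q z)) ∧ Nul P := by
  have hC : 0 ≤ C := (norm_nonneg _).trans (h1 0)
  set a : ℕ → Z →L[ℝ] Z := fun k => T (k + 1) - T k with ha
  set b : ℕ → Z →L[ℝ] Z := fun k => T (k + 1) + T k with hb
  set D := 4 * C ^ 2 + 5 * C with hD
  have hD0 : 0 ≤ D := by positivity
  have nb : ∀ k, ‖b k‖ ≤ 2 * C := fun k => (norm_add_le _ _).trans (by linarith [h1 k, h1 (k + 1)])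
  have na : ∀ k, ‖a k‖ ≤ 2 * C := fun k => (norm_sub_le _ _).trans (by linarith [h1 k, h1 (k + 1)])
  have nb1 : ∀ k l, ‖b k * (1 - T l)‖ ≤ 3 * C * (2 ^ k / 2 ^ l) := fun k l => by
    rw [hb, add_mul]
    refine (norm_add_le _ _).trans ((add_le_add (h2 _ _) (h2 _ _)).trans (le_of_eq ?_))
    ring
  have cTb : ∀ l k, Commute (T l) (b k) := fun l k => (hc _ _).add_right (hc _ _)
  have nab : ∀ l k, ‖a l * b k‖ ≤ D * min 1 (2 ^ k / 2 ^ l) := fun l k => by
    have k0 : (0 : ℝ) ≤ 2 ^ k / 2 ^ l := by positivity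
    rw [mul_min_of_nonneg _ _ hD0]
    refine le_min ((norm_mul_le _ _).trans ?_) ?_
    · nlinarith [mul_le_mul (na l) (nb k) (norm_nonneg _) (by positivity)]
    · have e : a l * b k = b k * (1 - T l) - b k * (1 - T (l + 1)) := by
        rw [((cTb _ _).sub_left (cTb _ _)).eq]
        noncomm_ring
      have k1 := nb1 k (l + 1)
      rw [pow_succ, ← div_div] at k1
      rw [e]
      refine (norm_sub_le _ _).trans ?_
      nlinarith [nb1 k l, mul_nonneg hC k0, mul_nonneg (sq_nonneg C) k0]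
  have nTb : ∀ l k, ‖(1 - T l) * b k‖ ≤ D * min 1 (2 ^ k / 2 ^ l) := fun l k => by
    have k0 : (0 : ℝ) ≤ 2 ^ k / 2 ^ l := by positivity
    rw [mul_min_of_nonneg _ _ hD0]
    refine le_min ?_ ?_
    · rw [sub_mul, one_mul]
      refine (norm_sub_le _ _).trans ?_
      nlinarith [mul_le_mul (h1 l) (nb k) (norm_nonneg _) hC, norm_mul_le (T l) (b k), nb k]
    · rw [((Commute.one_left _).sub_left (cTb _ _)).eq]
      nlinarith [nb1 k l, mul_nonneg hC k0, mul_nonneg (sq_nonneg C) k0]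
  have nK : ∀ k z, ‖S.K k z‖ ≤ ‖z‖ := fun k z =>
    (single_le_sum (f := fun n => ‖S.K n z‖) (fun _ _ => norm_nonneg _)
      (self_mem_range_succ k)).trans (S.sum_K _ z)
  have hsum : Summable fun k => (2 / 3 : ℝ) ^ k • (b k ∘L S.K k) := by
    refine Summable.of_norm_bounded ((summable_geometric_of_lt_one (r := 2 / 3) (by norm_num)
      (by norm_num)).mul_right (2 * C)) fun k => ?_
    rw [norm_smul, Real.norm_of_nonneg (by positivity)]
    refine mul_le_mul_of_nonneg_left (ContinuousLinearMap.opNorm_le_bound _ (by positivity)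
      fun z => ((b k).le_of_opNorm_le (nb k) _).trans ?_) (by positivity)
    exact mul_le_mul_of_nonneg_left (nK k z) (by positivity)
  set q := ∑' k, (2 / 3 : ℝ) ^ k • (b k ∘L S.K k)
  have hq : ∀ z, HasSum (fun k => (2 / 3 : ℝ) ^ k • b k (S.K k z)) (q z) := fun z =>
    (ContinuousLinearMap.apply ℝ Z z).hasSum hsum.hasSum
  have hU : ∀ (U : Z →L[ℝ] Z) (w : ℕ → ℝ), (∀ k, ‖U * b k‖ ≤ w k) → ∀ (M : ℕ) z,
      ‖U (∑ k ∈ range M, (2 / 3 : ℝ) ^ k • b k (S.K k z))‖ ≤
        ∑ k ∈ range M, (2 / 3 : ℝ) ^ k * w k * ‖S.K k z‖ := fun U w hw M z => by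
    rw [map_sum]
    refine (norm_sum_le _ _).trans (sum_le_sum fun k _ => ?_)
    rw [map_smul, norm_smul, Real.norm_of_nonneg (by positivity), mul_assoc]
    exact mul_le_mul_of_nonneg_left ((U * b k).le_of_opNorm_le (hw k) _) (by positivity)
  obtain ⟨P, hP⟩ := S.synth (fun l => (3 / 2 : ℝ) ^ l • (a l ∘L q)) (6 * D) fun N z => by
    refine le_of_tendsto' (tendsto_finsetSum (range N) fun l _ =>
      ((((a l).continuous.tendsto _).comp (hq z).tendsto_sum_nat).const_smul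
        ((3 / 2 : ℝ) ^ l)).norm) fun M => ?_
    calc _ ≤ ∑ l ∈ range N, ∑ k ∈ range M, (3 / 2 : ℝ) ^ l *
            ((2 / 3 : ℝ) ^ k * (D * min 1 (2 ^ k / 2 ^ l)) * ‖S.K k z‖) := sum_le_sum fun l _ => by
          rw [norm_smul, Real.norm_of_nonneg (by positivity), ← mul_sum]
          exact mul_le_mul_of_nonneg_left (hU _ _ (nab l) M z) (by positivity)
      _ ≤ ∑ k ∈ range M, 6 * D * ‖S.K k z‖ := by
          rw [sum_comm]
          refine sum_le_sum fun k _ => ?_
          have k1 : (3 / 2 : ℝ) ^ k * (2 / 3) ^ k = 1 := by rw [← mul_pow]; norm_num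
          calc _ = (∑ l ∈ range N, (3 / 2 : ℝ) ^ l * min 1 (2 ^ k / 2 ^ l)) *
                ((2 / 3 : ℝ) ^ k * D * ‖S.K k z‖) := by
                rw [sum_mul]
                exact sum_congr rfl fun l _ => by ring
            _ ≤ 6 * (3 / 2) ^ k * ((2 / 3 : ℝ) ^ k * D * ‖S.K k z‖) :=
                mul_le_mul_of_nonneg_right (wt_sum k N) (by positivity)
            _ = _ := by linear_combination 6 * D * ‖S.K k z‖ * k1
      _ ≤ _ := by
          rw [← mul_sum]
          exact mul_le_mul_of_nonneg_left (S.sum_K M z) (by positivity)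
  replace hP : ∀ m z, S.K m (P z) = (3 / 2 : ℝ) ^ m • a m (q z) := hP
  have hT : ∀ N z, ‖(1 - T N) (q z)‖ ≤ D * (2 / 3) ^ N * ‖z‖ := fun N z => by
    refine le_of_tendsto' (((1 - T N).continuous.tendsto _).comp (hq z).tendsto_sum_nat).norm
      fun M => (hU _ _ (nTb N) M z).trans ?_
    refine le_trans (sum_le_sum fun k _ => ?_) ((mul_sum _ _ _).ge.trans
      (mul_le_mul_of_nonneg_left (S.sum_K M z) (by positivity)))
    rw [mul_left_comm]
    exact mul_le_mul_of_nonneg_right (mul_le_mul_of_nonneg_left (wt_le k N) hD0) (norm_nonneg _)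
  have hqP : ∀ z, q (P z) = q z := fun z => by
    refine tendsto_nhds_unique (hq (P z)).tendsto_sum_nat ?_
    have e : ∀ N, ∑ k ∈ range N, (2 / 3 : ℝ) ^ k • b k (S.K k (P z)) = T N (T N (q z)) := by
      intro N
      induction N with
      | zero => simp [h0]
      | succ n ih =>
        have k1 : (2 / 3 : ℝ) ^ n * (3 / 2) ^ n = 1 := by rw [← mul_pow]; norm_num
        have k2 : T n (T (n + 1) (q z)) = T (n + 1) (T n (q z)) :=
          congrArg (fun U : Z →L[ℝ] Z => U (q z)) (hc n (n + 1)).eq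
        rw [sum_range_succ, ih, hP, map_smul, smul_smul, k1, one_smul]
        simp only [ha, hb, _root_.add_apply, _root_.sub_apply, map_sub, k2]
        abel
    simp only [e]
    rw [tendsto_iff_norm_sub_tendsto_zero]
    have k3 := ((tendsto_pow_atTop_nhds_zero_of_lt_one (r := (2 / 3 : ℝ)) (by norm_num)
      (by norm_num)).const_mul D).mul_const ‖z‖ |>.const_mul (C + 1)
    simp only [mul_zero, zero_mul] at k3
    refine squeeze_zero (fun _ => norm_nonneg _) (fun N => ?_) k3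
    have k4 : T N (T N (q z)) - q z = -(T N ((1 - T N) (q z)) + (1 - T N) (q z)) := by simp
    rw [k4, norm_neg]
    refine (norm_add_le _ _).trans ?_
    nlinarith [(T N).le_of_opNorm_le (h1 N) ((1 - T N) (q z)), hT N z,
      mul_le_mul_of_nonneg_left (hT N z) hC]
  have hqJ : ∀ k y, q (S.J k y) = (2 / 3 : ℝ) ^ k • b k y := fun k y => by
    have := hasSum_single (f := fun m => (2 / 3 : ℝ) ^ m • b m (S.K m (S.J k y))) k
      fun m hm => by simp [S.KJ_ne _ _ _ hm]
    rw [S.KJ_same] at this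
    exact (hq _).unique this
  refine ⟨P, q, fun z => S.ext_K fun m => by rw [hP, hP, hqP], hqP, fun y => by simp [hqJ, hb, h0],
    hP, S.nul fun k => Nul.of_approx fun V η hη => ?_⟩
  have hτ : Summable fun l => D * (4 / 3) ^ k * ‖V‖ * (3 / 4 : ℝ) ^ l :=
    (summable_geometric_of_lt_one (by norm_num) (by norm_num)).mul_left _
  obtain ⟨L, hL⟩ := ((tendsto_sum_nat_add fun l => D * (4 / 3) ^ k * ‖V‖ * (3 / 4 : ℝ) ^ l).eventually
    (ge_mem_nhds hη)).exists
  refine ⟨∑ l ∈ range L, (S.J l ∘L ((3 / 2 : ℝ) ^ l • (2 / 3 : ℝ) ^ k • a l)) ∘L b k,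
    Nul.sum (fun l => ((hN _).add (hN _)).left _) _, fun n U => ?_⟩
  have k1 := S.tail (P (S.J k (V (sig n U)))) L hτ fun l => by
    have k2 := (a l * b k).le_of_opNorm_le
      ((nab l k).trans (mul_le_mul_of_nonneg_left (min_le_right _ _) hD0)) (V (sig n U))
    have k3 := V.le_opNorm (sig n U)
    rw [norm_sig, mul_one] at k3
    rw [hP, hqJ, map_smul, norm_smul, norm_smul, Real.norm_of_nonneg (by positivity),
      Real.norm_of_nonneg (by positivity)]
    calc _ ≤ (3 / 2 : ℝ) ^ l * ((2 / 3) ^ k * (D * (2 ^ k / 2 ^ l) * ‖V‖)) := by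
          gcongr
          exact k2.trans (by gcongr)
      _ = _ := by
          rw [show (4 / 3 : ℝ) = 2 / 3 * 2 by norm_num, show (3 / 4 : ℝ) = 3 / 2 / 2 by norm_num,
            mul_pow, div_pow (3 / 2 : ℝ)]
          ring
  refine le_trans (le_of_eq ?_) (k1.trans hL)
  simp [hP, hqJ]

end

theorem pack {anc : ℕ → Finset ℕ} {w : ℕ → ℝ} (hw : ∀ v, 0 ≤ w v)
    (hT : ∀ M : Set ℕ, M.Infinite → ∀ L : ℝ, ∃ S : Finset ℕ, ↑S ⊆ M ∧ L < psi anc w S) :
    ∃ (S : SelfSum LC) (P q : LC →L[ℝ] LC) (R : ℕ → LC →L[ℝ] LC), (∀ k, ‖R k‖ ≤ 1) ∧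
      (∀ k F, R k (toL (wal F)) = mps anc w (2 ^ k) F • toL (wal F)) ∧ (∀ z, P (P z) = P z) ∧
      Nul P ∧ (∀ y, q (P (S.J 0 y)) = R 0 y) ∧
      (∀ m z, ‖S.K m (P z)‖ ≤ (3 / 2) ^ m * (‖R m (q (P z))‖ + ‖R (m - 1) (q (P z))‖)) ∧
      ∀ (N : ℕ) y, ‖P (S.J 0 y)‖ ≤ 4 * (3 / 2) ^ N * ‖R 0 y‖ + 24 * (3 / 4) ^ N * ‖y‖ := by
  obtain ⟨S⟩ := nonempty_selfSum_LC
  choose R hR1 hR using fun k : ℕ =>
    Unc.exists_res (anc := anc) hw (show (0 : ℝ) < 2 ^ k by positivity)
  have hc : ∀ k l, Commute (R k) (R l) := fun k l => ext_wal fun S => by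
    simp [hR, smul_smul, mul_comm]
  have h1 : ∀ k, ‖1 - R k‖ ≤ 2 := fun k => (norm_sub_le _ _).trans (by
    linarith [hR1 k, ContinuousLinearMap.norm_id_le (𝕜 := ℝ) (E := LC),
      show ‖(1 : LC →L[ℝ] LC)‖ = ‖ContinuousLinearMap.id ℝ LC‖ from rfl])
  have h2 : ∀ k l, ‖R k * (1 - R l)‖ ≤ 2 * (2 ^ k / 2 ^ l) := fun k l => by
    have e : R k * (1 - R l) = (2 ^ k / 2 ^ l : ℝ) • (R l * (1 - R k)) := ext_wal fun S => by
      simp only [_root_.smul_apply, mul_apply_eq_comp, _root_.sub_apply,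
        one_apply_eq_self, map_sub, hR, map_smul, smul_smul, ← sub_smul]
      congr 1
      unfold mps
      have := psi_nonneg (anc := anc) hw S
      field_simp
      ring
    rw [e, norm_smul, Real.norm_of_nonneg (by positivity), mul_comm]
    refine mul_le_mul_of_nonneg_right ((norm_mul_le _ _).trans ?_) (by positivity)
    nlinarith [hR1 l, h1 k, norm_nonneg (R l), norm_nonneg (1 - R k)]
  obtain ⟨P, q, hP, hq, hJ, hK, hN⟩ := exists_proj2 S (fun k => Nat.casesOn k 0 R) 2 rfl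
    (fun k l => by
      cases k
      · exact Commute.zero_left _
      · cases l
        · exact Commute.zero_right _
        · exact hc _ _)
    (fun k => by
      cases k
      · simp
      · exact (hR1 _).trans one_le_two)
    (fun k l => by
      cases k with
      | zero => simp
      | succ k =>
        cases l with
        | zero =>
          have : (1 : ℝ) ≤ 2 ^ (k + 1) := one_le_pow₀ one_le_two
          simp only [Nat.rec_zero, sub_zero, mul_one, pow_zero, div_one]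
          linarith [hR1 k]
        | succ l => exact (h2 k l).trans (le_of_eq (by field_simp; ring)))
    (fun k => by
      cases k
      · exact Nul.zero
      · exact Unc.nul_res hw hT (by positivity) (hR1 _) (hR _))
  have hJ' : ∀ y, q (S.J 0 y) = R 0 y := hJ
  have hK0 : ∀ z, S.K 0 (P z) = R 0 (q z) := fun z => by simpa using hK 0 z
  have hK1 : ∀ m z, S.K (m + 1) (P z) = (3 / 2 : ℝ) ^ (m + 1) • (R (m + 1) (q z) - R m (q z)) :=
    fun m z => hK (m + 1) z
  have hL : ∀ m z, ‖S.K m (P z)‖ ≤ (3 / 2) ^ m * (‖R m (q z)‖ + ‖R (m - 1) (q z)‖) := fun m z => by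
    cases m with
    | zero => simp [hK0]
    | succ m =>
      rw [hK1, norm_smul, Real.norm_of_nonneg (by positivity)]
      exact mul_le_mul_of_nonneg_left (norm_sub_le _ _) (by positivity)
  refine ⟨S, P, q, R, hR1, hR, hP, hN, fun y => by rw [hq, hJ'], fun m z => by
    rw [hq]; exact hL m z, fun N y => ?_⟩
  have k1 : ∀ m, ‖S.K m (P (S.J 0 y))‖ ≤ 6 * ‖y‖ * (3 / 4) ^ m := fun m => by
    cases m with
    | zero =>
      rw [hK0, hJ']
      nlinarith [(R 0).le_of_opNorm_le (hR1 0) (R 0 y), (R 0).le_of_opNorm_le (hR1 0) y,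
        norm_nonneg y]
    | succ m =>
      have e : R (m + 1) (R 0 y) - R m (R 0 y) = (R 0 * (1 - R m)) y - (R 0 * (1 - R (m + 1))) y := by
        have e1 : ∀ l, R l (R 0 y) = R 0 (R l y) := fun l =>
          congrArg (fun U : LC →L[ℝ] LC => U y) (hc l 0).eq
        simp [e1]
      rw [hK1, hJ', norm_smul, Real.norm_of_nonneg (by positivity), e]
      have e2 := (R 0 * (1 - R m)).le_of_opNorm_le (h2 0 m) y
      have e3 := (R 0 * (1 - R (m + 1))).le_of_opNorm_le (h2 0 (m + 1)) y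
      refine (mul_le_mul_of_nonneg_left ((norm_sub_le _ _).trans (add_le_add e2 e3))
        (by positivity)).trans (le_of_eq ?_)
      rw [show (3 / 4 : ℝ) = 3 / 2 / 2 by norm_num, div_pow (3 / 2 : ℝ)]
      field_simp
      ring
  have k2 := S.tail (P (S.J 0 y)) N
    ((summable_geometric_of_lt_one (r := (3 / 4 : ℝ)) (by norm_num) (by norm_num)).mul_left _) k1
  simp only [pow_add, ← mul_assoc] at k2
  rw [tsum_mul_right, tsum_mul_left, tsum_geometric_of_lt_one (by norm_num) (by norm_num)] at k2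
  have k3 : ‖∑ k ∈ range N, S.J k (S.K k (P (S.J 0 y)))‖ ≤ 4 * (3 / 2) ^ N * ‖R 0 y‖ := by
    have e : ∀ n, ∑ k ∈ range n, (3 / 2 : ℝ) ^ k ≤ 2 * (3 / 2) ^ n := fun n => by
      induction n with
      | zero => simp
      | succ n ih =>
        rw [sum_range_succ, pow_succ]
        linarith
    refine (norm_sum_le _ _).trans ((sum_le_sum (g := fun k => (3 / 2 : ℝ) ^ k * (2 * ‖R 0 y‖))
      fun k _ => (S.norm_J _ _).trans ((hL k _).trans ?_)).trans ?_)
    · rw [hJ']
      refine mul_le_mul_of_nonneg_left ?_ (by positivity)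
      linarith [(R k).le_of_opNorm_le (hR1 k) (R 0 y),
        (R (k - 1)).le_of_opNorm_le (hR1 _) (R 0 y)]
    · rw [← sum_mul]
      nlinarith [e N, norm_nonneg (R 0 y)]
  have k4 := norm_sub_norm_le (P (S.J 0 y)) (∑ k ∈ range N, S.J k (S.K k (P (S.J 0 y))))
  norm_num at k2
  linarith

end Pool.Agent.Lib.MP_f99ede_an.Cont
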