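import Pool.Agent.Lib.MP_f99ede_an.Cont.Low

/-! Weakly null sequences: uniform tails, uniform integrability, and resolvents with weights that
tend to infinity. -/

open MeasureTheory Finset Filter Topology

namespace Pool.Agent.Lib.MP_f99ede_an.Cont

open Unc

theorem abs_rad (k : ℕ) (x : Cube) : |rad k x| = 1 := by
  rw [rad_apply]
  split_ifs <;> simp

theorem select {P Q : ℕ → ℕ → Prop} (h1 : ∀ N, ∃ j, N ≤ j ∧ P N j)
    (h2 : ∀ j N, ∃ N', N < N' ∧ Q N' j) : ∃ N j : ℕ → ℕ, StrictMono N ∧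
      ∀ i, i ≤ j i ∧ P (N i) (j i) ∧ Q (N (i + 1)) (j i) := by
  choose J J1 J2 using h1
  choose G G1 G2 using h2
  let N : ℕ → ℕ := fun i => Nat.rec 0 (fun _ k => G (J k) k) i
  have hN : StrictMono N := strictMono_nat_of_lt_succ fun i => G1 _ _
  exact ⟨N, fun i => J (N i), hN, fun i => ⟨hN.le_apply.trans (J1 _), J2 _, G2 _ _⟩⟩

section

variable {Z W : Type*} [NormedAddCommGroup Z] [NormedSpace ℝ Z] [NormedAddCommGroup W]
  [NormedSpace ℝ W]

/-- Weakly null sequences. -/
def WN (z : ℕ → Z) : Prop := ∀ φ : Z →L[ℝ] ℝ, Tendsto (fun j => φ (z j)) atTop (𝓝 0)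

theorem WN.map {z : ℕ → Z} (h : WN z) (U : Z →L[ℝ] W) : WN fun j => U (z j) :=
  fun φ => h (φ ∘L U)

theorem WN.bdd {z : ℕ → Z} (h : WN z) : ∃ B > 0, ∀ j, ‖z j‖ ≤ B := by
  obtain ⟨C, hC⟩ := banach_steinhaus (g := fun j => NormedSpace.inclusionInDoubleDualLi ℝ (z j))
    fun φ => (h φ).norm.bddAbove_range.imp fun C hC j => hC ⟨j, rfl⟩
  exact ⟨|C| + 1, by positivity, fun j => by
    linarith [hC j, (NormedSpace.inclusionInDoubleDualLi (E := Z) ℝ).norm_map (z j), le_abs_self C]⟩

theorem WN.diag {z : ℕ → Z} (h : WN z) (φ : ℕ → Z →L[ℝ] ℝ)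
    (hφ : ∀ (N : ℕ) y, ∑ k ∈ range N, |φ k y| ≤ ‖y‖) {δ : ℝ} (hδ : 0 < δ) :
    ∀ᶠ j in atTop, ∀ i, |φ i (z j)| ≤ δ := by
  have s0 : ∀ y, Summable fun k => |φ k y| := fun y =>
    summable_of_sum_range_le (fun _ => abs_nonneg _) (hφ · y)
  have b0 : ∀ (x : Cube) y k, ‖rad k x * φ k y‖ ≤ |φ k y| := fun x y k => by
    rw [Real.norm_eq_abs, abs_mul, abs_rad, one_mul]
  have s1 : ∀ (x : Cube) y, Summable fun k => rad k x * φ k y := fun x y =>
    Summable.of_norm_bounded (s0 y) (b0 x y)
  have h1 : ∀ x : Cube, Tendsto (fun j => ∑' k, rad k x * φ k (z j)) atTop (𝓝 0) := fun x =>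
    h (LinearMap.mkContinuous ⟨⟨fun y => ∑' k, rad k x * φ k y, fun a b => by
      simp only [map_add, mul_add]
      exact (s1 x a).tsum_add (s1 x b)⟩, fun c a => by
      simp only [map_smul, smul_eq_mul, RingHom.id_apply, ← tsum_mul_left, mul_left_comm]⟩ 1
      fun y => (tsum_of_norm_bounded (s0 y).hasSum (b0 x y)).trans (by
        rw [one_mul]
        exact Real.tsum_le_of_sum_range_le (fun _ => abs_nonneg _) (hφ · y)))
  obtain ⟨n, x, hx⟩ := nonempty_interior_of_iUnion_of_closed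
    (f := fun n => ⋂ j, ⋂ _ : n ≤ j, {x : Cube | |∑' k, rad k x * φ k (z j)| ≤ δ})
    (fun n => isClosed_iInter fun j => isClosed_iInter fun _ => isClosed_le
      (continuous_tsum (fun k => by fun_prop) (s0 (z j)) fun k x => b0 x _ k).abs continuous_const)
    (Set.eq_univ_of_forall fun x => by
      obtain ⟨n, hn⟩ := eventually_atTop.1 ((h1 x).abs.eventually (ge_mem_nhds (by simpa using hδ)))
      exact Set.mem_iUnion.2 ⟨n, Set.mem_iInter₂.2 hn⟩)
  obtain ⟨I, u, hu, hI⟩ := isOpen_pi_iff.1 isOpen_interior x hx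
  filter_upwards [eventually_ge_atTop n, (eventually_all_finset I).2 fun i _ =>
    (h (φ i)).abs.eventually (ge_mem_nhds (by simpa using hδ))] with j hj h2 i
  by_cases hi : i ∈ I
  · exact h2 i hi
  · have k1 := Set.mem_iInter₂.1 (interior_subset hx) j hj
    have k2 := Set.mem_iInter₂.1 (interior_subset (hI (a := flp i x) fun a ha => by
      rw [flp_apply, if_neg fun e : a = i => hi (e ▸ ha)]
      exact (hu a ha).2)) j hj
    have k3 := (s1 x (z j)).tsum_sub (s1 (flp i x) (z j))
    rw [tsum_eq_single i fun k hk => by rw [rad_flp, if_neg hk, sub_self], rad_flp, if_pos rfl]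
      at k3
    have k4 := abs_sub (∑' k, rad k x * φ k (z j)) (∑' k, rad k (flp i x) * φ k (z j))
    rw [← k3, neg_mul, sub_neg_eq_add, ← two_mul, abs_mul, abs_mul, abs_rad, abs_two] at k4
    change _ ≤ δ at k1 k2
    linarith

theorem WN.tail [CompleteSpace Z] (S : SelfSum Z) {z : ℕ → Z} (h : WN z) {δ : ℝ} (hδ : 0 < δ) :
    ∃ N, ∀ᶠ j in atTop, ‖z j - ∑ k ∈ range N, S.J k (S.K k (z j))‖ ≤ δ := by
  by_contra! hc
  obtain ⟨N, j, hN, hj⟩ := select
    (P := fun N j => δ < ‖z j - ∑ k ∈ range N, S.J k (S.K k (z j))‖)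
    (Q := fun N j => ‖z j - ∑ k ∈ range N, S.J k (S.K k (z j))‖ ≤ δ / 2)
    (fun N => by
      obtain ⟨j, a, b⟩ := ((hc N).and_eventually (eventually_ge_atTop N)).exists
      exact ⟨j, b, a⟩) fun j N => by
      obtain ⟨M, a, b⟩ := ((eventually_gt_atTop N).and ((tendsto_sum_nat_add
        fun k => ‖S.K k (z j)‖).eventually (ge_mem_nhds (half_pos hδ)))).exists
      exact ⟨M, a, (S.tail (z j) M (summable_of_sum_range_le (fun _ => norm_nonneg _)
        fun n => S.sum_K n _) fun _ => le_rfl).trans b⟩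
  let D : ℕ → Z →L[ℝ] Z := fun i => ∑ k ∈ Ico (N i) (N (i + 1)), S.J k ∘L S.K k
  have hD : ∀ i y, D i y = ∑ k ∈ Ico (N i) (N (i + 1)), S.J k (S.K k y) := fun i y => by simp [D]
  choose ψ ψ1 ψ2 using fun i => exists_dual_vector'' ℝ (D i (z (j i)))
  obtain ⟨i, hi⟩ := eventually_atTop.1 (h.diag (fun i => ψ i ∘L D i) (fun m y => by
    refine le_trans ?_ (S.sum_K (N m) y)
    induction m with
    | zero => exact sum_nonneg fun _ _ => norm_nonneg _
    | succ m ih =>
      rw [sum_range_succ, ← sum_range_add_sum_Ico _ (hN.monotone m.le_succ)]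
      refine add_le_add ih (((ψ m).le_of_opNorm_le (ψ1 m) (D m y)).trans ?_)
      rw [one_mul, hD]
      exact (norm_sum_le _ _).trans (sum_le_sum fun k _ => S.norm_J _ _))
    (show 0 < δ / 4 by positivity))
  have k1 := hi (j i) (hj i).1 i
  have k2 := norm_add_le (z (j i) - ∑ k ∈ range (N (i + 1)), S.J k (S.K k (z (j i)))) (D i (z (j i)))
  rw [ContinuousLinearMap.comp_apply, ψ2, RCLike.ofReal_real_eq_id, id, abs_norm] at k1
  rw [← sum_range_add_sum_Ico _ (hN.monotone i.le_succ), ← hD, ← sub_sub, sub_add_cancel,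
    sub_sub, hD, sum_range_add_sum_Ico _ (hN.monotone i.le_succ), ← hD] at k2
  linarith [(hj i).2.1, (hj i).2.2]

end

theorem exists_test {h : Cube → ℝ} (hm : Measurable h) (hC : ∀ u, |h u| ≤ 1) :
    ∃ φ : LC →L[ℝ] ℝ, ∀ g, φ g = ∫ u, h u * g u ∂muC := by
  have hi : ∀ g : LC, Integrable (fun u => h u * g u) muC := fun g =>
    (L1.integrable_coeFn g).bdd_mul hm.aestronglyMeasurable (Eventually.of_forall hC)
  refine ⟨LinearMap.mkContinuous ⟨⟨fun g => ∫ u, h u * g u ∂muC, fun f g => ?_⟩, fun c g => ?_⟩ 1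
    fun g => ?_, fun _ => rfl⟩
  · rw [← integral_add (hi f) (hi g)]
    refine integral_congr_ae ?_
    filter_upwards [Lp.coeFn_add f g] with u a
    rw [a, Pi.add_apply, mul_add]
  · rw [RingHom.id_apply, smul_eq_mul, ← integral_const_mul]
    refine integral_congr_ae ?_
    filter_upwards [Lp.coeFn_smul c g] with u a
    rw [a, Pi.smul_apply, smul_eq_mul, mul_left_comm]
  · rw [one_mul, L1.norm_eq_integral_norm]
    exact norm_integral_le_of_norm_le (L1.integrable_coeFn g).norm (Eventually.of_forall fun u => by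
      rw [norm_mul]
      exact mul_le_of_le_one_left (norm_nonneg _) (hC u))

theorem WN.ui {y : ℕ → LC} (h : WN y) {δ : ℝ} (hδ : 0 < δ) :
    ∃ M > 0, ∀ᶠ j in atTop, ∫ x, max (|y j x| - M) 0 ∂muC ≤ δ := by
  by_contra! hc
  obtain ⟨B, hB, hb⟩ := h.bdd
  have ia : ∀ g : LC, Integrable (fun x => |g x|) muC := fun g => (L1.integrable_coeFn g).abs
  have im : ∀ (g : LC) (M : ℝ), Integrable (fun x => max (|g x| - M) 0) muC := fun g M =>
    ((ia g).sub (integrable_const M)).sup (integrable_zero _ _ _)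
  have nn : ∀ g : LC, ∫ x, |g x| ∂muC = ‖g‖ := fun g => (L1.norm_eq_integral_norm g).symm
  obtain ⟨N, j, hN, hj⟩ := select
    (P := fun N j => δ < ∫ x, max (|y j x| - B * 2 ^ N) 0 ∂muC)
    (Q := fun N j => ∃ M > 0, ∫ x, max (|y j x| - M) 0 ∂muC + M * (2 * (1 / 2) ^ N) ≤ δ / 2)
    (fun N => by
      obtain ⟨j, a, b⟩ := ((hc (B * 2 ^ N) (by positivity)).and_eventually
        (eventually_ge_atTop N)).exists
      exact ⟨j, b, a⟩) fun j N => by
      obtain ⟨M, m0, m1⟩ := unif_int (μ := muC) (g := fun _ x => |y j x|) (fun _ => ia _)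
        (fun _ => EventuallyLE.rfl) (fun _ => le_rfl) (show 0 < δ / 4 by positivity)
      have := ((tendsto_pow_atTop_nhds_zero_of_lt_one (r := (1 / 2 : ℝ)) (by norm_num)
        (by norm_num)).const_mul 2).const_mul M
      obtain ⟨n, a, b⟩ := ((eventually_gt_atTop N).and (this.eventually
        (ge_mem_nhds (show _ < δ / 4 by simpa using hδ)))).exists
      exact ⟨n, a, M, m0, by linarith [m1 0]⟩
  have my : ∀ g : LC, Measurable g := fun g => (Lp.stronglyMeasurable g).measurable
  let U : ℕ → Set Cube := fun i => ⋃ l, {x | B * 2 ^ N (i + l) ≤ |y (j (i + l)) x|}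
  have mU : ∀ i, MeasurableSet (U i) := fun i =>
    MeasurableSet.iUnion fun l => measurableSet_le measurable_const (my _).abs
  have aU : ∀ i, U (i + 1) ⊆ U i := fun i => Set.iUnion_subset fun l =>
    Set.subset_iUnion_of_subset (l + 1) (by rw [add_assoc, add_comm 1 l])
  have bU : ∀ i, muC.real (U i) ≤ 2 * (1 / 2) ^ N i := fun i => by
    have k : ∀ l, muC.real {x | B * 2 ^ N (i + l) ≤ |y (j (i + l)) x|} ≤
        (1 / 2) ^ l * (1 / 2) ^ N i := fun l => by
      have a := mul_meas_ge_le_integral_of_nonneg (Eventually.of_forall fun x => abs_nonneg _)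
        (ia (y (j (i + l)))) (B * 2 ^ N (i + l))
      rw [nn] at a
      have b := (le_div_iff₀' (by positivity)).2 (a.trans (hb _))
      refine b.trans ?_
      rw [← pow_add, div_mul_cancel_left₀ hB.ne', ← inv_pow, one_div]
      exact pow_le_pow_of_le_one (by norm_num) (by norm_num) (hN.add_le_nat l i |>.trans'
        le_rfl |>.trans (by rw [add_comm]))
    have s := summable_geometric_two.mul_right ((1 / 2 : ℝ) ^ N i)
    have e : ∑' l : ℕ, (1 / 2 : ℝ) ^ l * (1 / 2) ^ N i = 2 * (1 / 2) ^ N i := by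
      rw [tsum_mul_right, tsum_geometric_two]
    rw [← e]
    refine ENNReal.toReal_le_of_le_ofReal (tsum_nonneg fun _ => by positivity)
      ((measure_iUnion_le _).trans ?_)
    rw [ENNReal.ofReal_tsum_of_nonneg (fun _ => by positivity) s]
    exact ENNReal.tsum_le_tsum fun l => (ENNReal.le_ofReal_iff_toReal_le (measure_ne_top _ _)
      (by positivity)).2 (k l)
  let I : ℕ → Cube → ℝ := fun i => (U i).indicator 1
  have mI : ∀ i, Measurable (I i) := fun i => measurable_one.indicator (mU i)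
  have I0 : ∀ i x, 0 ≤ I i x ∧ I i x ≤ 1 ∧ I (i + 1) x ≤ I i x := fun i x => by
    refine ⟨?_, ?_, Set.indicator_le_indicator_of_subset (aU i) (fun _ => zero_le_one) x⟩ <;>
      by_cases k : x ∈ U i <;> simp [I, k]
  have I1 : ∀ i x, |(I i x - I (i + 1) x) * if y (j i) x < 0 then -1 else 1| =
      I i x - I (i + 1) x := fun i x => by
    rw [abs_mul, abs_of_nonneg (sub_nonneg.2 (I0 i x).2.2)]
    split_ifs <;> simp
  have I2 : ∀ i x, |I i x - I (i + 1) x| ≤ 1 := fun i x => by
    rw [abs_of_nonneg (sub_nonneg.2 (I0 i x).2.2)]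
    linarith [(I0 i x).2.1, (I0 (i + 1) x).1]
  have iI : ∀ i (g : LC), Integrable (fun x => (I i x - I (i + 1) x) * |g x|) muC := fun i g =>
    (ia g).bdd_mul ((mI i).sub (mI _)).aestronglyMeasurable (Eventually.of_forall (I2 i))
  choose φ hφ using fun i => exists_test
    (h := fun x => (I i x - I (i + 1) x) * if y (j i) x < 0 then -1 else 1)
    (((mI i).sub (mI _)).mul (Measurable.ite (measurableSet_lt (my _) measurable_const)
      measurable_const measurable_const)) fun x => (I1 i x).le.trans (le_abs_self _ |>.trans (I2 i x))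
  obtain ⟨i, hi⟩ := eventually_atTop.1 (h.diag φ (fun m g => by
    refine (sum_le_sum fun i _ => ?_).trans ((integral_finsetSum _ fun i _ => iI i g).ge.trans
      ((integral_mono (integrable_finsetSum _ fun i _ => iI i g) (ia g) fun x => ?_).trans (nn g).le))
    · rw [hφ, ← Real.norm_eq_abs]
      refine norm_integral_le_of_norm_le (iI i g) (Eventually.of_forall fun x => ?_)
      rw [Real.norm_eq_abs, abs_mul, I1]
    · simp only
      rw [← sum_mul, sum_range_sub' (fun i => I i x)]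
      exact mul_le_of_le_one_left (abs_nonneg _) (by linarith [(I0 0 x).2.1, (I0 m x).1]))
    (show 0 < δ / 4 by positivity))
  obtain ⟨a, b, M, m0, c⟩ := hj i
  have k1 := (le_abs_self _).trans (hi (j i) a i)
  have i1 : Integrable (fun x => M * I (i + 1) x) muC :=
    ((integrable_const 1).indicator (mU _)).const_mul M
  have k2 : ∫ x, max (|y (j i) x| - B * 2 ^ N i) 0 ∂muC ≤ φ i (y (j i)) +
      (∫ x, max (|y (j i) x| - M) 0 ∂muC + M * muC.real (U (i + 1))) := by
    have e : φ i (y (j i)) = ∫ x, (I i x - I (i + 1) x) * |y (j i) x| ∂muC := by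
      rw [hφ]
      refine integral_congr_ae (Eventually.of_forall fun x => ?_)
      simp only
      split_ifs with k
      · rw [abs_of_neg k]
        ring
      · rw [abs_of_nonneg (not_lt.1 k), mul_one]
    have i2 : Integrable (fun x => max (|y (j i) x| - M) 0 + M * I (i + 1) x) muC :=
      (im _ _).add i1
    rw [e, ← integral_indicator_one (mU _), ← integral_const_mul, ← integral_add (im _ _) i1,
      ← integral_add (iI _ _) i2]
    refine integral_mono (im _ _) ((iI _ _).add i2) fun x => ?_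
    have c1 := le_max_left (|y (j i) x| - M) 0
    have c2 := le_max_right (|y (j i) x| - M) 0
    have c3 : 0 < B * 2 ^ N i := by positivity
    have c4 := abs_nonneg (y (j i) x)
    by_cases k : x ∈ U (i + 1)
    · simp only [I, Set.indicator_of_mem k, Set.indicator_of_mem (aU i k), Pi.one_apply]
      exact max_le (by linarith) (by linarith)
    · by_cases k' : x ∈ U i
      · simp only [I, Set.indicator_of_notMem k, Set.indicator_of_mem k', Pi.one_apply]
        exact max_le (by linarith) (by linarith)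
      · have c5 : ¬B * 2 ^ N i ≤ |y (j i) x| := fun e => k' (Set.mem_iUnion.2 ⟨0, e⟩)
        simp only [I, Set.indicator_of_notMem k, Set.indicator_of_notMem k']
        exact max_le (by linarith) (by linarith)
  linarith [mul_le_mul_of_nonneg_left (bU (i + 1)) m0.le]

theorem WN.res {y : ℕ → LC} (h : WN y) {m : Finset ℕ → ℝ} {R : LC →L[ℝ] LC} (hR1 : ‖R‖ ≤ 1)
    (hR : ∀ S, R (toL (wal S)) = m S • toL (wal S))
    (hm : ∀ κ > 0, ∃ n, ∀ S, ¬S ⊆ range n → |m S| ≤ κ) {η : ℝ} (hη : 0 < η) :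
    ∀ᶠ j in atTop, ‖R (y j)‖ ≤ η := by
  obtain ⟨M, hM, h1⟩ := h.ui (show 0 < η / 8 by positivity)
  obtain ⟨n, hn⟩ := hm (η / 4 / M) (by positivity)
  obtain ⟨E, hE1, hE⟩ := exists_cond n
  choose φ hφ1 hφ using exists_coef
  have e1 : E = ∑ F ∈ (range n).powerset, (φ F).smulRight (toL (wal F)) := ext_wal fun S => by
    simp only [hE, _root_.sum_apply, ContinuousLinearMap.smulRight_apply, hφ, ite_smul, one_smul,
      zero_smul, sum_ite_eq, mem_powerset]
  have k1 : Tendsto (fun j => ‖E (y j)‖) atTop (𝓝 0) := by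
    have := (tendsto_finsetSum (range n).powerset fun F _ =>
      (h (φ F)).smul_const (toL (wal F))).norm
    simpa [e1] using this
  set Q := R ∘L (1 - E) with hQ
  have q1 : ∀ y, ‖Q y‖ ≤ 2 * ‖y‖ := fun y => by
    have a1 := R.le_of_opNorm_le hR1 (y - E y)
    have a2 := E.le_of_opNorm_le hE1 y
    have a3 := norm_sub_le y (E y)
    change ‖R (y - E y)‖ ≤ _
    linarith
  have q2 : ∀ S, Q (toL (wal S)) = ((if S ⊆ range n then 0 else 1) * m S) • toL (wal S) :=
    fun S => by
      change R (toL (wal S) - E (toL (wal S))) = _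
      rw [hE]
      split_ifs <;> simp [hR]
  filter_upwards [h1, k1.eventually (ge_mem_nhds (show 0 < η / 4 by positivity))] with j a b
  obtain ⟨s, g, hs, hgM, -, hg⟩ := exists_clamp (y j) hM (show 0 < η / 8 by positivity)
  obtain ⟨c, hc⟩ := exists_pol s g hs
  have b1 := l2_le s c (fun S => (if S ⊆ range n then 0 else 1) * m S)
    (show 0 < η / 4 / M by positivity) hM (fun S _ => by
      split_ifs with k
      · simpa using by positivity
      · simpa using hn S k) fun x => hc x ▸ hgM x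
  rw [← mul_pol q2, ← ContinuousMap.ext hc, div_mul_cancel₀ _ hM.ne'] at b1
  have b2 := q1 (y j - toL g)
  have b3 := R.le_of_opNorm_le hR1 (E (y j))
  have b4 := norm_sub_norm_le (R (y j)) (R (E (y j)))
  rw [map_sub] at b2
  rw [← map_sub] at b4
  change _ ≤ ‖Q (y j)‖ at b4
  linarith [norm_sub_norm_le (Q (y j)) (Q (toL g))]

end Pool.Agent.Lib.MP_f99ede_an.Cont
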