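import Pool.Agent.Lib.MP_f99ede_an.Cont.Disp

/-! Upper and lower bounds for one step after a resolvent. -/

open MeasureTheory Finset Filter Topology

namespace Pool.Agent.Lib.MP_f99ede_an.Cont

open Unc

theorem pet_mult {m : Finset ℕ → ℝ} {R : LC →L[ℝ] LC}
    (hR : ∀ S, R (toL (wal S)) = m S • toL (wal S)) {n n' : ℕ} (h : n ≤ n') {κ : ℝ} (hκ : 0 < κ)
    (hm : ∀ S ⊆ range n', |(if S ⊆ range n then 0 else 1) * m S| ≤ κ) : Pet R n n' κ := by
  intro ε hε
  set c : Finset ℕ → ℝ := fun S => ∑ a ∈ (range n').powerset,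
    ε a * ((1 / 2) ^ n' * ∏ j ∈ S, sg a j) with hc
  have h1 : ∀ μ : Finset ℕ → ℝ, ∑ a ∈ (range n').powerset, ε a • pol (range n')
      (fun S => μ S * ((1 / 2) ^ n' * ∏ j ∈ S, sg a j)) = pol (range n') fun S => μ S * c S :=
    fun μ => by
      simp only [pol, smul_sum, smul_smul, hc, mul_sum, sum_smul]
      rw [sum_comm]
      exact sum_congr rfl fun S _ => sum_congr rfl fun a _ => by rw [mul_left_comm]
  have h2 : ∀ x, |pol (range n') c x| ≤ 1 := fun x => by
    have k := h1 fun _ => 1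
    simp only [one_mul, ← cyl_pol] at k
    rw [← k, ← abs_sum_cyl x n' ε hε]
    simp
  have h3 := l2_le (range n') c (fun S => (if S ⊆ range n then 0 else 1) * m S) hκ one_pos
    (fun S hS => hm S (mem_powerset.1 hS)) h2
  simp only [del_pol h]
  rw [h1, mul_pol hR]
  simpa only [mul_one, mul_assoc, mul_left_comm] using h3

theorem pet_one {n n' : ℕ} (h : n ≤ n') : Pet (1 : LC →L[ℝ] LC) n n' 1 :=
  pet_mult (m := fun _ => 1) (fun S => by simp) h one_pos fun S _ => by split_ifs <;> simp

theorem disp_res (W : LC →L[ℝ] LC) {η : ℝ} (hη : 0 < η) : ∃ M > 0, ∀ {m : Finset ℕ → ℝ}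
    {R : LC →L[ℝ] LC}, ‖R‖ ≤ 1 → (∀ S, R (toL (wal S)) = m S • toL (wal S)) →
    ∀ {n n' : ℕ} {ρ κ : ℝ}, n ≤ n' → 0 < κ → Pet W n n' ρ → (∀ S, ¬S ⊆ range n → |m S| ≤ κ) →
      disp (R ∘L W) n n' ≤ 2 ^ n * ρ + η + 2 * (2 ^ n' * (κ * M)) := by
  obtain ⟨M, hM, h1⟩ := unif_int (μ := muC)
    (g := fun n x => ∑ a ∈ (range n).powerset, |W (toL (cyl n a)) x|)
    (fun n => integrable_finsetSum _ fun a _ => (L1.integrable_coeFn _).abs) (fun n => by
      have k : ∀ᵐ x ∂muC, ∀ a ∈ (range n).powerset, W (toL (cyl n a)) x =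
          W (toL (cyl (n + 1) a)) x + W (toL (cyl (n + 1) (insert n a))) x := by
        refine (eventually_all_finset _).2 fun a ha => ?_
        rw [cyl_split ha, map_add, map_add]
        exact Lp.coeFn_add _ _
      filter_upwards [k] with x hx
      rw [range_add_one, sum_powerset_insert notMem_range_self, ← sum_add_distrib]
      refine sum_le_sum fun a ha => ?_
      rw [hx a ha]
      exact abs_add_le _ _) (B := ‖W‖) (fun n => by
      rw [integral_finsetSum _ fun a _ => (L1.integrable_coeFn _).abs]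
      refine le_trans (le_of_eq (sum_congr rfl fun a _ => ?_)) (tot_le W n)
      rw [L1.norm_eq_integral_norm]
      rfl) (show 0 < η / 8 by positivity)
  refine ⟨M, hM, fun {m R} hR1 hR {n n' ρ κ} h hκ hP hm => ?_⟩
  obtain ⟨E, hE1, hE⟩ := exists_cond n
  choose φ hφ1 hφ using exists_coef
  have e1 : E = ∑ F ∈ (range n).powerset, (φ F).smulRight (toL (wal F)) := ext_wal fun S => by
    simp only [hE, _root_.sum_apply, ContinuousLinearMap.smulRight_apply, hφ, ite_smul, one_smul,
      zero_smul, sum_ite_eq, mem_powerset]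
  have k1 : disp (E ∘L W) n n' ≤ 2 ^ n * ρ := by
    calc _ ≤ ∑ a ∈ (range n').powerset, ∑ F ∈ (range n).powerset,
            ‖φ F (W (toL (del n n' a)))‖ := sum_le_sum fun a _ => by
          rw [e1, ContinuousLinearMap.comp_apply, _root_.sum_apply]
          refine (norm_sum_le _ _).trans (sum_le_sum fun F _ => ?_)
          rw [ContinuousLinearMap.smulRight_apply, norm_smul, norm_wal, mul_one]
      _ ≤ ∑ _F ∈ (range n).powerset, ρ := by
          rw [sum_comm]
          refine sum_le_sum fun F _ => (hP.left (φ F)).disp_le.trans ?_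
          exact mul_le_of_le_one_left ((norm_nonneg _).trans (hP (fun _ => 1) (by simp))) (hφ1 F)
      _ = _ := by simp
  set Q := R ∘L (1 - E) with hQ
  have q1 : ∀ y, ‖Q y‖ ≤ 2 * ‖y‖ := fun y => by
    have a1 := R.le_of_opNorm_le hR1 (y - E y)
    have a2 := E.le_of_opNorm_le hE1 y
    have a3 := norm_sub_le y (E y)
    change ‖R (y - E y)‖ ≤ _
    linarith
  have q2 : ∀ S, Q (toL (wal S)) = ((if S ⊆ range n then 0 else 1) * m S) • toL (wal S) :=
    fun S => by
      change R (toL (wal S) - E (toL (wal S))) = _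
      rw [hE]
      split_ifs <;> simp [hR]
  have k2 : tot (Q ∘L W) n' ≤ η / 2 + 2 ^ n' * (κ * M) := by
    choose s g hs hgM _ hg2 using fun a => exists_clamp (W (toL (cyl n' a))) hM
      (show 0 < η / 8 / 2 ^ n' by positivity)
    have hi : ∀ a, Integrable (fun x => max (|W (toL (cyl n' a)) x| - M) 0) muC := fun a =>
      ((L1.integrable_coeFn _).abs.sub (integrable_const M)).sup (integrable_zero _ _ _)
    have a1 : ∑ a ∈ (range n').powerset, ∫ x, max (|W (toL (cyl n' a)) x| - M) 0 ∂muC ≤ η / 8 := by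
      rw [← integral_finsetSum _ fun a _ => hi a]
      exact (integral_mono (integrable_finsetSum _ fun a _ => hi a)
        (((integrable_finsetSum _ fun a _ => (L1.integrable_coeFn _).abs).sub
          (integrable_const M)).sup (integrable_zero _ _ _))
        fun x => sum_max_le _ _ hM.le).trans (h1 n')
    have a2 : ∀ a, ‖Q (W (toL (cyl n' a)))‖ ≤
        2 * (η / 8 / 2 ^ n' + ∫ x, max (|W (toL (cyl n' a)) x| - M) 0 ∂muC) + κ * M := fun a => by
      obtain ⟨c, hc⟩ := exists_pol (s a) (g a) (hs a)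
      have b1 := l2_le (s a) c (fun S => (if S ⊆ range n then 0 else 1) * m S) hκ hM
        (fun S _ => by
          split_ifs with k
          · simpa using hκ.le
          · simpa using hm S k) fun x => hc x ▸ hgM a x
      rw [← mul_pol q2, ← ContinuousMap.ext hc] at b1
      have b2 := q1 (W (toL (cyl n' a)) - toL (g a))
      rw [map_sub] at b2
      linarith [norm_sub_norm_le (Q (W (toL (cyl n' a)))) (Q (toL (g a))), hg2 a]
    refine (sum_le_sum fun a _ => a2 a).trans ?_
    simp only [sum_add_distrib, ← mul_sum, sum_const, card_powerset, card_range, nsmul_eq_mul]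
    push_cast
    have a3 : (2 : ℝ) ^ n' * (η / 8 / 2 ^ n') = η / 8 := by field_simp
    linarith
  have k3 := disp_le_tot (Q ∘L W) h
  have k4 : disp (R ∘L W) n n' ≤ disp (E ∘L W) n n' + disp (Q ∘L W) n n' := by
    rw [disp, disp, disp, ← sum_add_distrib]
    refine sum_le_sum fun a _ => ?_
    have a1 := R.le_of_opNorm_le hR1 (E (W (toL (del n n' a))))
    have a2 := norm_sub_norm_le (R (W (toL (del n n' a)))) (R (E (W (toL (del n n' a)))))
    rw [← map_sub] at a2
    change ‖R (W _)‖ ≤ ‖E (W _)‖ + ‖R (W _ - E (W _))‖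
    linarith
  linarith

theorem log_step {m S : ℝ} (hm : 1 ≤ m) (D : Finset ℕ) (hD : (D.card : ℝ) = m) (r : ℕ → ℝ)
    (hr : ∀ j, r j * r j = 1) (hS : ∑ j ∈ D, r j = S) :
    |∑ j ∈ D, (Real.log (1 + S ^ 2 / m) - Real.log (1 + (S - 2 * r j) ^ 2 / m))| ≤ 36 := by
  have m0 : 0 < m := by linarith
  set u := m + S ^ 2 with hu
  have u0 : 0 < u := by positivity
  have e : ∀ j, Real.log (1 + S ^ 2 / m) - Real.log (1 + (S - 2 * r j) ^ 2 / m) =
      Real.log (u / (m + (S - 2 * r j) ^ 2)) := fun j => by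
    rw [← Real.log_div (by positivity) (by positivity)]
    congr 1
    rw [hu]
    field_simp
  have s1 : ∑ j ∈ D, (4 * S * r j - 4) / u = (4 * S ^ 2 - 4 * m) / u := by
    rw [← sum_div, sum_sub_distrib, ← mul_sum, hS, sum_const, nsmul_eq_mul, hD]
    ring
  have s2 : |(4 * S ^ 2 - 4 * m) / u| ≤ 4 := by
    rw [abs_div, abs_of_pos u0, div_le_iff₀ u0, abs_le]
    constructor <;> nlinarith [sq_nonneg S]
  have d : ∀ j, m + (S - 2 * r j) ^ 2 = u - (4 * S * r j - 4) := fun j => by
    rw [hu]
    linear_combination 4 * hr j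
  simp only [e]
  rw [abs_le] at s2 ⊢
  constructor
  · refine le_trans (by linarith [s2.1]) (s1.ge.trans (sum_le_sum fun j _ => ?_))
    have v0 : 0 < m + (S - 2 * r j) ^ 2 := by positivity
    refine le_trans (le_of_eq ?_) (Real.one_sub_inv_le_log_of_pos (div_pos u0 v0))
    rw [inv_div, d]
    field_simp
    ring
  · refine (sum_le_sum (g := fun j => (4 * S * r j - 4) / u + 32 / m) fun j _ => ?_).trans ?_
    · have v0 : 0 < m + (S - 2 * r j) ^ 2 := by positivity
      refine (Real.log_le_sub_one_of_pos (div_pos u0 v0)).trans ?_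
      set v := m + (S - 2 * r j) ^ 2 with hv
      have a1 : 4 * S * r j - 4 = u - v := by linarith [d j]
      have a2 : (u - v) ^ 2 ≤ 32 * u := by
        have : (S * r j) ^ 2 = S ^ 2 := by rw [mul_pow, sq (r j), hr, mul_one]
        rw [← a1, hu]
        nlinarith [sq_nonneg (S * r j + 1)]
      have a3 : m ≤ v := by rw [hv]; nlinarith [sq_nonneg (S - 2 * r j)]
      have a4 : u / v - 1 = (u - v) / u + (u - v) ^ 2 / (u * v) := by
        field_simp
        ring
      rw [a1, a4]
      refine add_le_add_right ?_ _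
      rw [div_le_div_iff₀ (by positivity) m0]
      nlinarith [mul_le_mul a2 a3 m0.le (by positivity)]
    · rw [sum_add_distrib, s1, sum_const, nsmul_eq_mul, hD, mul_div_cancel₀ _ m0.ne']
      linarith [s2.2]

end Pool.Agent.Lib.MP_f99ede_an.Cont
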